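import Mathlib

set_option autoImplicit false

namespace Pool.Agent.Work.MP_52b37d_gt

namespace Approx

/-- uniform dependence on finitely many coordinates -/
theorem unif {X : ℕ → Type} [∀ m, TopologicalSpace (X m)] [∀ m, CompactSpace (X m)]
    [∀ m, T2Space (X m)] (G : C((∀ m, X m), ℂ)) :
    ∃ N : ℕ, ∀ x y : (∀ m, X m), (∀ i ≤ N, x i = y i) → dist (G x) (G y) < 1 / 4 := by
  by_contra hcon
  push Not at hcon
  let K : ℕ → Set ((∀ m, X m) × (∀ m, X m)) := fun N =>
    {p | (∀ i ≤ N, p.1 i = p.2 i) ∧ 1 / 4 ≤ dist (G p.1) (G p.2)}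
  have hKc : ∀ N, IsClosed (K N) := by
    intro N
    apply IsClosed.inter
    · have : {p : (∀ m, X m) × (∀ m, X m) | ∀ i ≤ N, p.1 i = p.2 i} =
          ⋂ i, ⋂ (_ : i ≤ N), {p | p.1 i = p.2 i} := by
        ext p; simp
      show IsClosed {p : (∀ m, X m) × (∀ m, X m) | ∀ i ≤ N, p.1 i = p.2 i}
      rw [this]
      refine isClosed_iInter fun i => isClosed_iInter fun _ => ?_
      exact isClosed_eq ((continuous_apply i).comp continuous_fst)
        ((continuous_apply i).comp continuous_snd)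
    · exact isClosed_le continuous_const
        ((G.continuous.comp continuous_fst).dist (G.continuous.comp continuous_snd))
  have hne : ∀ N, (K N).Nonempty := by
    intro N
    obtain ⟨x, y, h1, h2⟩ := hcon N
    exact ⟨(x, y), h1, h2⟩
  obtain ⟨p, hp⟩ := IsCompact.nonempty_iInter_of_sequence_nonempty_isCompact_isClosed K
    (fun N p hp => ⟨fun i hi => hp.1 i (by omega), hp.2⟩) hne (hKc 0).isCompact hKc
  rw [Set.mem_iInter] at hp
  have h1 : p.1 = p.2 := by
    ext i
    exact (hp i).1 i le_rfl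
  have h2 := (hp 0).2
  rw [h1, dist_self] at h2
  norm_num at h2

theorem norm_sub_div (z : ℂ) (hz : z ≠ 0) : ‖z - z / ‖z‖‖ = |‖z‖ - 1| := by
  have hn : ‖z‖ ≠ 0 := norm_ne_zero_iff.2 hz
  have hn' : (‖z‖ : ℂ) ≠ 0 := by exact_mod_cast hn
  have e : z - z / ‖z‖ = z / ‖z‖ * ((‖z‖ - 1 : ℝ) : ℂ) := by
    push_cast
    field_simp
  rw [e, norm_mul, norm_div, Complex.norm_real, Complex.norm_real, Real.norm_eq_abs,
    Real.norm_eq_abs, abs_norm, div_self hn, one_mul]

end Approx

open Approx in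
theorem exists_approx (X : ℕ → Type) [∀ m, TopologicalSpace (X m)] [∀ m, CompactSpace (X m)]
    [∀ m, T2Space (X m)] [∀ m, Nonempty (X m)] (π : ∀ m, C(X (m + 1), X m))
    (hpr : ∀ N (z : X N), ∃ x : ∀ m, X m, (∀ m, π m (x (m + 1)) = x m) ∧ x N = z)
    (g : C({x : ∀ m, X m // ∀ m, π m (x (m + 1)) = x m}, Circle)) :
    ∃ N, ∃ g' : C(X N, Circle), ∀ x, dist (g x : ℂ) (g' (x.1 N) : ℂ) < 1 := by
  classical
  have hclosed : IsClosed {x : ∀ m, X m | ∀ m, π m (x (m + 1)) = x m} := by
    have : {x : ∀ m, X m | ∀ m, π m (x (m + 1)) = x m} = ⋂ m, {x | π m (x (m + 1)) = x m} := by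
      ext x; simp
    rw [this]
    refine isClosed_iInter fun m => ?_
    exact isClosed_eq ((π m).continuous.comp (continuous_apply (m + 1))) (continuous_apply m)
  have hcompact : CompactSpace {x : ∀ m, X m // ∀ m, π m (x (m + 1)) = x m} :=
    isCompact_iff_compactSpace.1 hclosed.isCompact
  let gc : C({x : ∀ m, X m | ∀ m, π m (x (m + 1)) = x m}, ℂ) :=
    ⟨fun x => (g x : ℂ), continuous_subtype_val.comp g.continuous⟩
  obtain ⟨G, hG⟩ := ContinuousMap.exists_restrict_eq hclosed gc
  have hG' : ∀ x : {x : ∀ m, X m // ∀ m, π m (x (m + 1)) = x m}, G x.1 = (g x : ℂ) := by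
    intro x
    exact congrArg (fun f : C({x : ∀ m, X m | ∀ m, π m (x (m + 1)) = x m}, ℂ) => f x) hG
  obtain ⟨N, hN⟩ := unif G
  obtain ⟨b⟩ : Nonempty (∀ m, X m) := inferInstance
  let r : (∀ m, X m) → (∀ m, X m) := fun x i => if i ≤ N then x i else b i
  have hr : Continuous r := by
    refine continuous_pi fun i => ?_
    by_cases h : i ≤ N
    · simp only [r, h, if_true]; exact continuous_apply i
    · simp only [r, h, if_false]; exact continuous_const
  have hrx : ∀ x, dist (G x) (G (r x)) < 1 / 4 := by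
    intro x
    apply hN
    intro i hi
    simp only [r, hi, if_true]
  let f : C({x : ∀ m, X m // ∀ m, π m (x (m + 1)) = x m}, ℂ) :=
    ⟨fun x => G (r x.1), G.continuous.comp (hr.comp continuous_subtype_val)⟩
  let q : {x : ∀ m, X m // ∀ m, π m (x (m + 1)) = x m} → X N := fun x => x.1 N
  have hqc : Continuous q := (continuous_apply N).comp continuous_subtype_val
  have hqs : Function.Surjective q := by
    intro z
    obtain ⟨x, hx, hz⟩ := hpr N z
    exact ⟨⟨x, hx⟩, hz⟩
  let qC : C({x : ∀ m, X m // ∀ m, π m (x (m + 1)) = x m}, X N) := ⟨q, hqc⟩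
  have hq : Topology.IsQuotientMap qC := hqc.isClosedMap.isQuotientMap hqc hqs
  have hfac : Function.FactorsThrough f qC := by
    intro x y hxy
    have h1 : ∀ k i, i + k = N → x.1 i = y.1 i := by
      intro k
      induction k with
      | zero =>
        intro i hi
        rw [add_zero] at hi
        subst hi
        exact hxy
      | succ k ih =>
        intro i hi
        rw [← x.2 i, ← y.2 i, ih (i + 1) (by omega)]
    show G (r x.1) = G (r y.1)
    congr 1
    ext i
    by_cases h : i ≤ N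
    · simp only [r, h, if_true]
      exact h1 (N - i) i (by omega)
    · simp only [r, h, if_false]
  let g₁ : C(X N, ℂ) := Topology.IsQuotientMap.lift hq f hfac
  have hg₁ : ∀ x, g₁ (q x) = f x := by
    intro x
    have h := Topology.IsQuotientMap.lift_comp hq f hfac
    exact DFunLike.congr_fun h x
  have hd : ∀ x, dist (g x : ℂ) (g₁ (q x)) < 1 / 4 := by
    intro x
    rw [hg₁, ← hG']
    exact hrx x.1
  have hnorm : ∀ x, |‖g₁ (q x)‖ - 1| < 1 / 4 := by
    intro x
    have h1 : ‖(g x : ℂ)‖ = 1 := Circle.norm_coe _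
    rw [← h1]
    have h2 := abs_norm_sub_norm_le (g₁ (q x)) (g x : ℂ)
    have h3 := hd x
    rw [dist_comm, dist_eq_norm] at h3
    linarith
  have hne : ∀ z, g₁ z ≠ 0 := by
    intro z
    obtain ⟨x, rfl⟩ := hqs z
    intro h
    have := hnorm x
    rw [h, norm_zero] at this
    norm_num at this
  refine ⟨N, ⟨fun z => ⟨g₁ z / ‖g₁ z‖, mem_sphere_zero_iff_norm.2 ?_⟩, ?_⟩, fun x => ?_⟩
  · rw [norm_div, Complex.norm_real, norm_norm, div_self (norm_ne_zero_iff.2 (hne z))]
  · refine Continuous.subtype_mk ?_ _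
    refine g₁.continuous.div (Complex.continuous_ofReal.comp g₁.continuous.norm) fun z => ?_
    have := norm_ne_zero_iff.2 (hne z)
    exact_mod_cast this
  · show dist (g x : ℂ) (g₁ (q x) / ‖g₁ (q x)‖) < 1
    have h1 := hd x
    have h2 := norm_sub_div (g₁ (q x)) (hne _)
    have h3 := hnorm x
    have h4 := dist_triangle (g x : ℂ) (g₁ (q x)) (g₁ (q x) / ‖g₁ (q x)‖)
    rw [dist_eq_norm (g₁ (q x)), h2] at h4
    linarith

end Pool.Agent.Work.MP_52b37d_gt
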