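import Pool.Agent.Work.MP_52b37d_gt.Walk

set_option autoImplicit false

namespace Pool.Agent.Work.MP_52b37d_gt

section words

variable {A : Type}

/-- interleave the two parts of a word -/
def word {s : ℕ} [NeZero s] (f : Fin (s + 1) → A) (g : Fin s → A) (j : ℕ) : A :=
  if Even j then f (Fin.ofNat (s + 1) (j / 2)) else g (Fin.ofNat s (j / 2))

variable {s : ℕ} [NeZero s]

theorem word_rev (f : Fin (s + 1) → A) (g : Fin s → A) (j : ℕ) (hj : j < 2 * s + 1) :
    word f g (2 * s - j) = word (f ∘ Fin.rev) (g ∘ Fin.rev) j := by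
  unfold word
  have hle : j ≤ 2 * s := by omega
  have hpar : Even (2 * s - j) ↔ Even j := by
    rw [Nat.even_sub hle]; simp
  by_cases he : Even j
  · rw [if_pos (hpar.2 he), if_pos he]
    simp only [Function.comp]
    congr 1
    ext
    obtain ⟨i, hi⟩ := he
    simp only [Fin.ofNat, Fin.val_rev]
    rw [Nat.mod_eq_of_lt (by omega), Nat.mod_eq_of_lt (by omega)]
    omega
  · rw [if_neg (fun h => he (hpar.1 h)), if_neg he]
    simp only [Function.comp]
    congr 1
    ext
    obtain ⟨i, hi⟩ := Nat.not_even_iff_odd.1 he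
    simp only [Fin.ofNat, Fin.val_rev]
    rw [Nat.mod_eq_of_lt (by omega), Nat.mod_eq_of_lt (by omega)]
    omega

theorem sum_range_odd (F : ℕ → ℤ) (s : ℕ) :
    ∑ j ∈ Finset.range (2 * s + 1), F j
      = ∑ i ∈ Finset.range (s + 1), F (2 * i) + ∑ i ∈ Finset.range s, F (2 * i + 1) := by
  induction s with
  | zero => simp
  | succ s ih =>
    rw [show 2 * (s + 1) + 1 = 2 * s + 1 + 1 + 1 by ring, Finset.sum_range_succ,
      Finset.sum_range_succ, ih, Finset.sum_range_succ (fun i => F (2 * i)) (s + 1),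
      Finset.sum_range_succ (fun i => F (2 * i + 1)) s]
    rw [show 2 * (s + 1) = 2 * s + 1 + 1 by ring]
    ring

theorem word_even (f : Fin (s + 1) → A) (g : Fin s → A) (i : Fin (s + 1)) :
    word f g (2 * (i : ℕ)) = f i := by
  unfold word
  rw [if_pos (by simp)]
  congr 1
  ext
  simp only [Fin.ofNat]
  rw [Nat.mul_div_cancel_left _ (by norm_num), Nat.mod_eq_of_lt i.2]

theorem word_odd (f : Fin (s + 1) → A) (g : Fin s → A) (i : Fin s) :
    word f g (2 * (i : ℕ) + 1) = g i := by
  unfold word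
  rw [if_neg (by simp)]
  congr 1
  ext
  simp only [Fin.ofNat]
  rw [show (2 * (i : ℕ) + 1) / 2 = i by omega, Nat.mod_eq_of_lt i.2]

/-- twist: reverse the word at odd times -/
def tw (s i : ℕ) (w : ℕ → A) : ℕ → A := fun j => if Even i then w j else w (2 * s - j)

end words

variable {k : ℕ}

theorem word_count {s : ℕ} [NeZero s] (f : Fin (s + 1) → Al k) (g : Fin s → Al k) (e : Al k) :
    ∑ j ∈ Finset.range (2 * s + 1), (-1 : ℤ) ^ j * (if word f g j = e then 1 else 0)
      = cnt f e - cnt g e := by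
  rw [sum_range_odd, Finset.sum_range, Finset.sum_range]
  have h1 : ∀ i : Fin (s + 1), (-1 : ℤ) ^ (2 * (i : ℕ)) * (if word f g (2 * (i : ℕ)) = e then 1 else 0)
      = if f i = e then 1 else 0 := by
    intro i
    rw [word_even, Even.neg_one_pow (by simp), one_mul]
  have h2 : ∀ i : Fin s, (-1 : ℤ) ^ (2 * (i : ℕ) + 1) *
      (if word f g (2 * (i : ℕ) + 1) = e then 1 else 0) = -(if g i = e then 1 else 0) := by
    intro i
    rw [word_odd, Odd.neg_one_pow (by simp), neg_one_mul]
  rw [Finset.sum_congr rfl (fun i _ => h1 i), Finset.sum_congr rfl (fun i _ => h2 i),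
    Finset.sum_neg_distrib]
  rfl

theorem tw_count (s i : ℕ) (w : ℕ → Al k) (e : Al k) :
    ∑ j ∈ Finset.range (2 * s + 1), (-1 : ℤ) ^ j * (if tw s i w j = e then 1 else 0)
      = ∑ j ∈ Finset.range (2 * s + 1), (-1 : ℤ) ^ j * (if w j = e then 1 else 0) := by
  unfold tw
  by_cases he : Even i
  · simp only [if_pos he]
  · simp only [if_neg he]
    rw [← Finset.sum_range_reflect]
    apply Finset.sum_congr rfl
    intro j hj
    have hj' : j ≤ 2 * s := by have := Finset.mem_range.1 hj; omega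
    rw [show 2 * s + 1 - 1 - j = 2 * s - j by omega, show 2 * s - (2 * s - j) = j by omega]
    congr 1
    have hpar : Even (2 * s - j) ↔ Even j := by
      rw [Nat.even_sub hj']; simp
    by_cases hej : Even j
    · rw [hej.neg_one_pow, (hpar.2 hej).neg_one_pow]
    · rw [(Nat.not_even_iff_odd.1 hej).neg_one_pow,
        (Nat.not_even_iff_odd.1 (fun h => hej (hpar.1 h))).neg_one_pow]

theorem word_rel {s : ℕ} [NeZero s] {f f' : Fin (s + 1) → Al k} {g g' : Fin s → Al k}
    (hf : ∀ j, Rel k (f j) (f' j)) (hg : ∀ j, Rel k (g j) (g' j)) (j : ℕ) :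
    Rel k (word f g j) (word f' g' j) := by
  unfold word
  split_ifs
  · exact hf _
  · exact hg _

theorem tw_rel (s i : ℕ) {w w' : ℕ → Al k} (h : ∀ j, Rel k (w j) (w' j)) (j : ℕ)
    (hj : j < 2 * s + 1) : Rel k (tw s i w j) (tw s (i + 1) w' (2 * s - j)) := by
  unfold tw
  by_cases he : Even i
  · rw [if_pos he, if_neg (by rw [Nat.even_add_one]; exact fun h => h he),
      show 2 * s - (2 * s - j) = j by omega]
    exact h j
  · rw [if_neg he, if_pos (by rw [Nat.even_add_one]; exact he)]
    exact h _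

theorem val_succ {n : ℕ} (hn : 2 ≤ n) (i : ZMod n) :
    (i + 1).val = if i.val + 1 = n then 0 else i.val + 1 := by
  have hne : NeZero n := ⟨by omega⟩
  have h1 : (1 : ZMod n).val = 1 := ZMod.val_one'' (by omega)
  have h2 := ZMod.val_lt i
  rw [ZMod.val_add, h1]
  split_ifs with h
  · rw [h, Nat.mod_self]
  · exact Nat.mod_eq_of_lt (by omega)

theorem exists_next (k : ℕ) (hk : 2 ≤ k) :
    ∃ (k' s : ℕ) (α β : Al k' → ℕ → Al k), 2 ≤ k' ∧ 1 ≤ s ∧
      (∀ e' j, j < 2 * s + 1 → Rel k (α e' j) (β e' (2 * s - j))) ∧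
      (∀ e' e'', Rel k' e' e'' → ∀ j, j < 2 * s + 1 → β e' j = α e'' j) ∧
      (∀ e' e, ∑ j ∈ Finset.range (2 * s + 1), (-1 : ℤ) ^ j * (if α e' j = e then 1 else 0)
        = kap k e) := by
  have hnek : NeZero k := ⟨by omega⟩
  let s : ℕ := 3 * k + 1
  have hnes : NeZero s := ⟨by simp [s]⟩
  -- the `+` part
  let projP : Al k ⊕ ZMod (k + 1) → Al k := Sum.elim id Sum.inr
  let rhP : Equiv.Perm (Al k ⊕ ZMod (k + 1)) :=
    Equiv.sumCongr (Equiv.sumCongr (Equiv.addRight 1) (Equiv.addRight 1)) (Equiv.addRight 1)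
  have hrhP : ∀ z, projP (rhP z) = rot k (projP z) := by
    rintro ((a | a) | a) <;> rfl
  let εP : Fin (s + 1) ≃ Al k ⊕ ZMod (k + 1) := Fintype.equivOfCardEq (by
    simp only [Fintype.card_sum, Fintype.card_fin, ZMod.card, s]; ring)
  let cP : Al k → ℤ := Sum.elim (fun _ => 1) (fun _ => 2)
  have hcP : ∀ e, cP (rot k e) = cP e := by rintro (a | a) <;> rfl
  have hposP : ∀ e, 1 ≤ cP e := by rintro (a | a) <;> simp [cP]
  have hfP : ∀ e, cnt (projP ∘ εP) e = cP e := by
    intro e
    have : cnt (projP ∘ εP) e = ∑ z, if projP z = e then (1 : ℤ) else 0 :=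
      Equiv.sum_comp εP (fun z => if projP z = e then (1 : ℤ) else 0)
    rw [this, Fintype.sum_sum_type]
    rcases e with a | a <;> simp [projP, cP]
  -- the `-` part
  let projM : Al k ⊕ ZMod k → Al k := Sum.elim id Sum.inl
  let rhM : Equiv.Perm (Al k ⊕ ZMod k) :=
    Equiv.sumCongr (Equiv.sumCongr (Equiv.addRight 1) (Equiv.addRight 1)) (Equiv.addRight 1)
  have hrhM : ∀ z, projM (rhM z) = rot k (projM z) := by
    rintro ((a | a) | a) <;> rfl
  let εM : Fin s ≃ Al k ⊕ ZMod k := Fintype.equivOfCardEq (by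
    simp only [Fintype.card_sum, Fintype.card_fin, ZMod.card, s]; ring)
  let cM : Al k → ℤ := Sum.elim (fun _ => 2) (fun _ => 1)
  have hcM : ∀ e, cM (rot k e) = cM e := by rintro (a | a) <;> rfl
  have hposM : ∀ e, 1 ≤ cM e := by rintro (a | a) <;> simp [cM]
  have hfM : ∀ e, cnt (projM ∘ εM) e = cM e := by
    intro e
    have : cnt (projM ∘ εM) e = ∑ z, if projM z = e then (1 : ℤ) else 0 :=
      Equiv.sum_comp εM (fun z => if projM z = e then (1 : ℤ) else 0)
    rw [this, Fintype.sum_sum_type]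
    rcases e with a | a <;> simp [projM, cM]
  have hdiff : ∀ e, cP e - cM e = kap k e := by rintro (a | a) <;> simp [cP, cM, kap]
  obtain ⟨r1, hr1⟩ := Walk.rev hcP hposP hk projP rhP hrhP εP hfP Fin.revPerm
  obtain ⟨r2, hr2⟩ := Walk.rev hcM hposM hk projM rhM hrhM εM hfM Fin.revPerm
  let r : ℕ := r1 + r2 + 1
  obtain ⟨F, F0, F1, F2, F3⟩ := hr1 r (by simp only [r]; omega)
  obtain ⟨G, G0, G1, G2, G3⟩ := hr2 r (by simp only [r]; omega)
  set f := projP ∘ εP with hf
  set g := projM ∘ εM with hg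
  let k' : ℕ := r * (k * (k + 1))
  have hk6 : 6 ≤ k * (k + 1) := by nlinarith
  have hk' : 6 ≤ k' := by
    have : 1 ≤ r := by simp only [r]; omega
    calc 6 ≤ k * (k + 1) := hk6
      _ = 1 * (k * (k + 1)) := by ring
      _ ≤ r * (k * (k + 1)) := Nat.mul_le_mul_right _ this
  have heven : Even k' := (Nat.even_mul_succ_self k).mul_left r
  let P : ℕ → ℕ → Al k := fun i => tw s i (word ((rot k)^[i] ∘ f) ((rot k)^[i] ∘ g))
  let Q : ℕ → ℕ → Al k := fun i => tw s i (word (F i) (G i))
  have hP0 : P 0 = word f g := by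
    funext j; simp only [P, tw, Even.zero, if_true, Function.iterate_zero, Function.id_comp]
  have hPk : P k' = word f g := by
    have h1 : (rot k)^[k'] ∘ f = f := funext fun x => rot_period k r _
    have h2 : (rot k)^[k'] ∘ g = g := funext fun x => rot_period k r _
    funext j
    simp only [P, tw, if_pos heven, h1, h2]
  have hQ0 : Q 0 = word f g := by
    funext j; simp only [Q, tw, Even.zero, if_true, F0, G0]
  have hQk : ∀ j, j < 2 * s + 1 → Q (k' + 1) j = word f g j := by
    intro j hj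
    have hodd : ¬ Even (k' + 1) := by rw [Nat.even_add_one]; exact fun h => h heven
    simp only [Q, tw, if_neg hodd]
    rw [show F (k' + 1) = f ∘ Fin.revPerm from F1, show G (k' + 1) = g ∘ Fin.revPerm from G1]
    have := word_rev (s := s) f g (2 * s - j) (by omega)
    rw [show 2 * s - (2 * s - j) = j by omega] at this
    rw [this]
    rfl
  refine ⟨k', s, Sum.elim (fun i => P i.val) (fun i => Q i.val),
    Sum.elim (fun i => P (i.val + 1)) (fun i => Q (i.val + 1)), by omega, by simp [s], ?_, ?_, ?_⟩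
  · -- C1
    rintro (i | i) j hj
    · show Rel k (P i.val j) (P (i.val + 1) (2 * s - j))
      refine tw_rel s i.val (fun j => word_rel ?_ ?_ j) j hj
      · intro x; simp only [Function.comp, Function.iterate_succ_apply']; exact rel_rot _
      · intro x; simp only [Function.comp, Function.iterate_succ_apply']; exact rel_rot _
    · show Rel k (Q i.val j) (Q (i.val + 1) (2 * s - j))
      have hi : i.val < k' + 1 := ZMod.val_lt i
      exact tw_rel s i.val (fun j => word_rel (F2 i.val hi) (G2 i.val hi) j) j hj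
  · -- C2
    rintro (i | i) (i' | i') hR j hj
    · show P (i.val + 1) j = P i'.val j
      have hR' : i' = i + 1 := hR
      rw [hR', val_succ (by omega)]
      split_ifs with h
      · rw [h, hPk, hP0]
      · rfl
    · show P (i.val + 1) j = Q i'.val j
      obtain ⟨h1, h2⟩ : i + 1 = 0 ∧ i' = 0 := hR
      have hne : NeZero k' := ⟨by omega⟩
      have hv := val_succ (by omega) i
      rw [h1, ZMod.val_zero] at hv
      have h3 : i.val + 1 = k' := by
        by_contra hcon
        rw [if_neg hcon] at hv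
        omega
      rw [h3, hPk, h2, ZMod.val_zero, hQ0]
    · show Q (i.val + 1) j = P i'.val j
      obtain ⟨h1, h2⟩ : i + 1 = 0 ∧ i' = 0 := hR
      have hne : NeZero k' := ⟨by omega⟩
      have hv := val_succ (by omega) i
      rw [h1, ZMod.val_zero] at hv
      have h3 : i.val + 1 = k' + 1 := by
        by_contra hcon
        rw [if_neg hcon] at hv
        omega
      rw [h3, hQk j hj, h2, ZMod.val_zero, hP0]
    · show Q (i.val + 1) j = Q i'.val j
      have hR' : i' = i + 1 := hR
      rw [hR', val_succ (by omega)]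
      split_ifs with h
      · rw [h, hQk j hj, hQ0]
      · rfl
  · -- C3
    rintro (i | i) e
    · show ∑ j ∈ Finset.range (2 * s + 1), (-1 : ℤ) ^ j * (if P i.val j = e then 1 else 0) = kap k e
      simp only [P]
      rw [tw_count, word_count, cnt_rot_iter hcP hfP, cnt_rot_iter hcM hfM, hdiff]
    · show ∑ j ∈ Finset.range (2 * s + 1), (-1 : ℤ) ^ j * (if Q i.val j = e then 1 else 0) = kap k e
      have hi : i.val < k' + 1 := ZMod.val_lt i
      simp only [Q]
      rw [tw_count, word_count, F3 i.val (by show i.val ≤ k' + 1; omega) e,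
        G3 i.val (by show i.val ≤ k' + 1; omega) e, hdiff]

end Pool.Agent.Work.MP_52b37d_gt
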