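import Pool.Agent.Work.MP_52b37d_gt.Basic

set_option autoImplicit false

open unitInterval

namespace Pool.Agent.Work.MP_52b37d_gt

/-- clamp, as an element of the unit interval -/
noncomputable def clI (x : ℝ) : I := ⟨cl x, by unfold cl; exact le_max_left _ _, by
  unfold cl; exact max_le zero_le_one (min_le_left _ _)⟩

theorem clI_of_nonpos {x : ℝ} (h : x ≤ 0) : clI x = 0 := Subtype.ext (cl_of_nonpos h)

theorem clI_of_one_le {x : ℝ} (h : 1 ≤ x) : clI x = 1 := Subtype.ext (cl_of_one_le h)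

theorem clI_coe (τ : I) : clI (τ : ℝ) = τ := Subtype.ext (cl_of_mem τ.2.1 τ.2.2)

theorem continuous_clI : Continuous clI := Continuous.subtype_mk continuous_cl _

/-- local parameter on the `j`-th piece -/
noncomputable def tau (s j : ℕ) (t : I) : I :=
  if Even j then clI ((2 * s + 1) * t - j) else σ (clI ((2 * s + 1) * t - j))

theorem continuous_tau (s j : ℕ) : Continuous (tau s j) := by
  have h : Continuous (fun t : I => clI ((2 * s + 1 : ℝ) * t - j)) :=
    continuous_clI.comp (by fun_prop)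
  unfold tau
  split_ifs
  · exact h
  · exact continuous_symm.comp h

/-- start and end parameter of the `j`-th piece -/
def st (j : ℕ) : I := if Even j then 0 else 1

def en (j : ℕ) : I := if Even j then 1 else 0

theorem tau_of_gt (s j : ℕ) (t : I) (h : (2 * s + 1 : ℝ) * t - j ≤ 0) : tau s j t = st j := by
  unfold tau st
  rw [clI_of_nonpos h, symm_zero]

theorem tau_of_lt (s j : ℕ) (t : I) (h : 1 ≤ (2 * s + 1 : ℝ) * t - j) : tau s j t = en j := by
  unfold tau en
  rw [clI_of_one_le h, symm_one]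

theorem tau_of_eq (s j : ℕ) (t τ : I) (h : (2 * s + 1 : ℝ) * t = j + τ) :
    tau s j t = if Even j then τ else σ τ := by
  unfold tau
  have : (2 * s + 1 : ℝ) * t - j = τ := by rw [h]; ring
  rw [this, clI_coe]

theorem exists_lift_step {E E' : Type} [Fintype E] [DecidableEq E] [Fintype E'] [DecidableEq E']
    [Nonempty E'] (s : ℕ) (α : E' → ℕ → E) (κ : E → ℤ)
    (hκ : ∀ e' e, ∑ j ∈ Finset.range (2 * s + 1), (-1 : ℤ) ^ j * (if α e' j = e then 1 else 0) = κ e)
    (g : C(Gam E, Circle)) :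
    ∃ Θ : C(Gam E', ℝ), ∀ (e' : E') (t : I), Circle.exp (Θ (Gam.mk e' t)) = g (wmk s (α e') t) := by
  obtain ⟨e0'⟩ := ‹Nonempty E'›
  have hE : Nonempty E := ⟨α e0' 0⟩
  let e0 : E := α e0' 0
  set gp : Circle := g (Gam.mk e0 0) with hgp
  set gq : Circle := g (Gam.mk e0 1) with hgq
  set θ0 : ℝ := Complex.arg (gp : ℂ) with hθ0
  have hexp0 : Circle.exp θ0 = gp := Circle.exp_arg gp
  -- lifts of the edges
  have hlift : ∀ e : E, ∃ θ : C(I, ℝ), (∀ t, Circle.exp (θ t) = g (Gam.mk e t)) ∧ θ 0 = θ0 := by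
    intro e
    obtain ⟨θ, h1, h2⟩ := Circle.isCoveringMap_exp.exists_path_lifts
      (⟨fun t => g (Gam.mk e t), g.continuous.comp (continuous_mk e)⟩ : C(I, Circle)) θ0
      (by show g (Gam.mk e 0) = _; rw [hexp0, hgp, mk_zero e e0])
    exact ⟨θ, fun t => congrFun h1 t, h2⟩
  choose θ hθ hθ0' using hlift
  have hθp : ∀ e, Circle.exp (θ e 0) = gp := fun e => by rw [hθ, mk_zero e e0]
  have hθq : ∀ e, Circle.exp (θ e 1) = gq := fun e => by rw [hθ, mk_one e e0]
  have hδ : ∀ e, Circle.exp (θ e 1 - θ0) = gq / gp := by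
    intro e; rw [Circle.exp_sub, hθq, hexp0]
  -- full terms
  have hterm : ∀ (e : E) (j : ℕ), θ e (en j) - θ e (st j) = (-1 : ℝ) ^ j * (θ e 1 - θ0) := by
    intro e j
    unfold en st
    by_cases hj : Even j
    · rw [if_pos hj, if_pos hj, hj.neg_one_pow, hθ0' e]; ring
    · rw [if_neg hj, if_neg hj, (Nat.not_even_iff_odd.1 hj).neg_one_pow, hθ0' e]; ring
  -- partial sums
  have hpart : ∀ (a : ℕ → E) (i : ℕ),
      Circle.exp (∑ j ∈ Finset.range i, (-1 : ℝ) ^ j * (θ (a j) 1 - θ0))
        = if Even i then 1 else gq / gp := by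
    intro a i
    induction i with
    | zero => simp
    | succ i ih =>
      rw [Finset.sum_range_succ, Circle.exp_add, ih]
      by_cases hi : Even i
      · rw [if_pos hi, if_neg (by rw [Nat.even_add_one]; exact fun h => h hi), hi.neg_one_pow,
          one_mul, one_mul, hδ]
      · rw [if_neg hi, if_pos (by rw [Nat.even_add_one]; exact hi),
          (Nat.not_even_iff_odd.1 hi).neg_one_pow, neg_one_mul, Circle.exp_neg, hδ]
        exact mul_inv_cancel _
  let Θf : E' → C(I, ℝ) := fun e' =>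
    ⟨fun t => θ0 + ∑ j ∈ Finset.range (2 * s + 1),
      (θ (α e' j) (tau s j t) - θ (α e' j) (st j)), by
        refine continuous_const.add (continuous_finsetSum _ fun j _ => ?_)
        exact ((θ (α e' j)).continuous.comp (continuous_tau s j)).sub continuous_const⟩
  have hΘ0 : ∀ e', Θf e' 0 = θ0 := by
    intro e'
    show θ0 + ∑ j ∈ Finset.range (2 * s + 1), (θ (α e' j) (tau s j 0) - θ (α e' j) (st j)) = θ0
    rw [Finset.sum_eq_zero, add_zero]
    intro j _
    rw [tau_of_gt s j 0 (by simp), sub_self]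
  have hΘ1 : ∀ e', Θf e' 1 = θ0 + ∑ e, (κ e : ℝ) * (θ e 1 - θ0) := by
    intro e'
    show θ0 + ∑ j ∈ Finset.range (2 * s + 1), (θ (α e' j) (tau s j 1) - θ (α e' j) (st j)) = _
    congr 1
    have h1 : ∀ j ∈ Finset.range (2 * s + 1), θ (α e' j) (tau s j 1) - θ (α e' j) (st j)
        = ∑ e, (-1 : ℝ) ^ j * (if α e' j = e then 1 else 0) * (θ e 1 - θ0) := by
      intro j hj
      have hj' : (j : ℝ) + 1 ≤ 2 * s + 1 := by exact_mod_cast Finset.mem_range.1 hj
      rw [tau_of_lt s j 1 (by simp only [Set.Icc.coe_one]; linarith), hterm]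
      rw [Finset.sum_eq_single (α e' j)]
      · simp
      · intro b _ hb; rw [if_neg (Ne.symm hb)]; ring
      · intro h; exact absurd (Finset.mem_univ _) h
    rw [Finset.sum_congr rfl h1, Finset.sum_comm]
    apply Finset.sum_congr rfl
    intro e _
    rw [← Finset.sum_mul, ← hκ e' e]
    push_cast
    rfl
  obtain ⟨Θ, hΘ⟩ := exists_desc Θf (fun e e' => by rw [hΘ0, hΘ0]) (fun e e' => by rw [hΘ1, hΘ1])
  refine ⟨Θ, fun e' t => ?_⟩
  rw [hΘ]
  obtain ⟨i, hi, τ, ht⟩ := exists_piece s t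
  have hval : Θf e' t = θ0 + (∑ j ∈ Finset.range i, (-1 : ℝ) ^ j * (θ (α e' j) 1 - θ0)
      + (θ (α e' i) (if Even i then τ else σ τ) - θ (α e' i) (st i))) := by
    show θ0 + ∑ j ∈ Finset.range (2 * s + 1), (θ (α e' j) (tau s j t) - θ (α e' j) (st j)) = _
    congr 1
    have h0 : (0 : ℝ) ≤ τ := τ.2.1
    have h1 : (τ : ℝ) ≤ 1 := τ.2.2
    have hsub : Finset.range (i + 1) ⊆ Finset.range (2 * s + 1) := by
      intro x hx; simp only [Finset.mem_range] at *; omega
    rw [← Finset.sum_subset hsub]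
    · rw [Finset.sum_range_succ, tau_of_eq s i t τ ht]
      congr 1
      apply Finset.sum_congr rfl
      intro j hj
      rw [tau_of_lt s j t, hterm]
      have : (j : ℝ) + 1 ≤ i := by exact_mod_cast Finset.mem_range.1 hj
      rw [ht]; linarith
    · intro j _ hj
      rw [tau_of_gt s j t, sub_self]
      have hj' : i + 1 ≤ j := by simpa using hj
      have : (i : ℝ) + 1 ≤ j := by exact_mod_cast hj'
      rw [ht]; linarith
  rw [hval, Circle.exp_add, Circle.exp_add, Circle.exp_sub, hpart, hexp0, hθ,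
    wmk_eq s (α e') t τ i hi ht]
  by_cases hi' : Even i
  · rw [if_pos hi', if_pos hi']
    unfold st
    rw [if_pos hi', hθp, one_mul, mul_div_cancel]
  · rw [if_neg hi', if_neg hi']
    unfold st
    rw [if_neg hi', hθq]
    rw [← mul_assoc, mul_div_cancel, mul_div_cancel]

end Pool.Agent.Work.MP_52b37d_gt
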