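import Pool.Agent.Work.MP_52b37d_gt.System
import Pool.Agent.Work.MP_52b37d_gt.Lift
import Pool.Agent.Work.MP_52b37d_gt.Approx
import Pool.Agent.Work.MP_52b37d_gt.Comb

set_option autoImplicit false

open unitInterval

namespace Pool.Agent.Work.MP_52b37d_gt

/-- A real lift makes a circle map inessential. -/
theorem homotopic_of_lift {X : Type} [TopologicalSpace X] (g : C(X, Circle)) (ψ : C(X, ℝ))
    (h : ∀ x, Circle.exp (ψ x) = g x) : ContinuousMap.Homotopic g (ContinuousMap.const X 1) := by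
  refine ⟨⟨⟨fun p => Circle.exp ((1 - (p.1 : ℝ)) * ψ p.2), ?_⟩, ?_, ?_⟩⟩
  · exact Circle.exp.continuous.comp
      ((continuous_const.sub (continuous_subtype_val.comp continuous_fst)).mul
        (ψ.continuous.comp continuous_snd))
  · intro x
    show Circle.exp ((1 - ((0 : I) : ℝ)) * ψ x) = g x
    rw [show ((0 : I) : ℝ) = 0 from rfl, sub_zero, one_mul, h]
  · intro x
    show Circle.exp ((1 - ((1 : I) : ℝ)) * ψ x) = 1
    rw [show ((1 : I) : ℝ) = 1 from rfl, sub_self, zero_mul, Circle.exp_zero]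

theorem Sys.inessential (S : Sys) (g : C(S.M, Circle)) :
    ContinuousMap.Homotopic g (ContinuousMap.const S.M 1) := by
  have hne : ∀ m, Nonempty (Gam (S.E m)) := fun m => ⟨Gam.mk (Classical.arbitrary _) 0⟩
  obtain ⟨N, g', hg'⟩ := exists_approx (fun m => Gam (S.E m)) S.π
    (fun N z => exists_thread (X := fun m => Gam (S.E m)) S.π S.π_surjective N z) g
  obtain ⟨Θ, hΘ⟩ := exists_lift_step (S.s N) (S.α N) (S.κ N) (S.c3 N) g'
  have hprc : ∀ N, Continuous (fun x : S.M => x.1 N) :=
    fun N => (continuous_apply N).comp continuous_subtype_val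
  have hlift : ∀ x : S.M, Circle.exp (Θ (x.1 (N + 1))) = g' (x.1 N) := by
    intro x
    rw [← x.2 N]
    obtain ⟨e', t, he⟩ := mk_surj (x.1 (N + 1))
    rw [he, hΘ, S.π_mk]
  let u : S.M → Circle := fun x => g x / g' (x.1 N)
  have hu : Continuous u := g.continuous.div' (g'.continuous.comp (hprc N))
  have hslit : ∀ x, (u x : ℂ) ∈ Complex.slitPlane := by
    intro x
    have h1 : ‖(u x : ℂ) - 1‖ < 1 := by
      have h2 : (u x : ℂ) - 1 = ((g x : ℂ) - (g' (x.1 N) : ℂ)) / (g' (x.1 N) : ℂ) := by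
        simp only [u, Circle.coe_div]
        rw [sub_div, div_self (Circle.coe_ne_zero _)]
      rw [h2, norm_div, Circle.norm_coe, div_one, ← dist_eq_norm]
      exact hg' x
    have h3 := Complex.mem_slitPlane_of_norm_lt_one h1
    rwa [add_sub_cancel] at h3
  have hψ : Continuous (fun x : S.M => Complex.arg (u x : ℂ) + Θ (x.1 (N + 1))) := by
    refine Continuous.add ?_ (Θ.continuous.comp (hprc (N + 1)))
    rw [continuous_iff_continuousAt]
    intro x
    have hc : ContinuousAt (fun x : S.M => (u x : ℂ)) x :=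
      (continuous_subtype_val.comp hu).continuousAt
    exact ContinuousAt.comp (f := fun x : S.M => (u x : ℂ)) (g := Complex.arg)
      (Complex.continuousAt_arg (hslit x)) hc
  refine homotopic_of_lift g ⟨_, hψ⟩ fun x => ?_
  show Circle.exp (Complex.arg (u x : ℂ) + Θ (x.1 (N + 1))) = g x
  rw [Circle.exp_add, Circle.exp_arg, hlift]
  exact div_mul_cancel _ _

/-- The data of one step. -/
structure Nx (k : ℕ) where
  k' : ℕ
  s : ℕ
  α : Al k' → ℕ → Al k
  β : Al k' → ℕ → Al k
  hk' : 2 ≤ k'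
  hs : 1 ≤ s
  c1 : ∀ e' j, j < 2 * s + 1 → Rel k (α e' j) (β e' (2 * s - j))
  c2 : ∀ e' e'', Rel k' e' e'' → ∀ j, j < 2 * s + 1 → β e' j = α e'' j
  c3 : ∀ e' e, ∑ j ∈ Finset.range (2 * s + 1), (-1 : ℤ) ^ j * (if α e' j = e then 1 else 0)
    = kap k e

theorem nonempty_Nx (k : ℕ) (hk : 2 ≤ k) : Nonempty (Nx k) := by
  obtain ⟨k', s, α, β, h1, h2, h3, h4, h5⟩ := exists_next k hk
  exact ⟨⟨k', s, α, β, h1, h2, h3, h4, h5⟩⟩

noncomputable def nx (a : {k : ℕ // 2 ≤ k}) : Nx a.1 := Classical.choice (nonempty_Nx a.1 a.2)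

noncomputable def sq : ℕ → {k : ℕ // 2 ≤ k}
  | 0 => ⟨2, le_refl 2⟩
  | m + 1 => ⟨(nx (sq m)).k', (nx (sq m)).hk'⟩

theorem rel_irrefl (k : ℕ) (hk : 2 ≤ k) (e : Al k) : ¬ Rel k e e := by
  have f1 : Fact (1 < k) := ⟨by omega⟩
  have f2 : Fact (1 < k + 1) := ⟨by omega⟩
  rcases e with i | i
  · intro h
    have h' : i = i + 1 := h
    exact one_ne_zero (left_eq_add.1 h')
  · intro h
    have h' : i = i + 1 := h
    exact one_ne_zero (left_eq_add.1 h')

noncomputable def theSys : Sys :=
  letI : ∀ m, NeZero (sq m).1 := fun m => ⟨by have := (sq m).2; omega⟩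
  { E := fun m => Al (sq m).1
    R := fun m => Rel (sq m).1
    s := fun m => (nx (sq m)).s
    α := fun m => (nx (sq m)).α
    β := fun m => (nx (sq m)).β
    κ := fun m => kap (sq m).1
    hs := fun m => (nx (sq m)).hs
    irr := fun m e => rel_irrefl (sq m).1 (sq m).2 e
    c1 := fun m => (nx (sq m)).c1
    c2 := fun m => (nx (sq m)).c2
    c3 := fun m => (nx (sq m)).c3
    κne := fun m e => by rcases e with i | i <;> simp [kap] }

theorem exists_space : ∃ (X : Type) (_ : MetricSpace X) (_ : CompactSpace X) (_ : ConnectedSpace X)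
    (_ : Nontrivial X) (f : C(X, X)), Function.Surjective f ∧
      (∀ x : X, ∀ K : Set X, IsClosed K → IsConnected K → x ∈ K → f x ∈ K → K = Set.univ) ∧
      ∀ g : C(X, Circle), ContinuousMap.Homotopic g (ContinuousMap.const X 1) := by
  have h1 := theSys.compactSpace_M
  have h2 := theSys.connectedSpace_M
  have h3 := theSys.nontrivial_M
  have h5 : SecondCountableTopology theSys.M :=
    TopologicalSpace.Subtype.secondCountableTopology
      {x : ∀ m, Gam (theSys.E m) | ∀ m, theSys.π m (x (m + 1)) = x m}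
  have h4 : TopologicalSpace.MetrizableSpace theSys.M :=
    TopologicalSpace.metrizableSpace_of_t3_secondCountable _
  let _ := TopologicalSpace.metrizableSpaceMetric theSys.M
  exact ⟨theSys.M, inferInstance, h1, h2, h3, theSys.h, theSys.h_surjective,
    fun x K hK1 hK2 hx hhx => theSys.irreducible x K hK1 hK2 hx hhx, theSys.inessential⟩

end Pool.Agent.Work.MP_52b37d_gt
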