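import Pool.Agent.Work.MP_52b37d_gt.Defs

set_option autoImplicit false

open unitInterval

namespace Pool.Agent.Work.MP_52b37d_gt

theorem cl_of_nonpos {x : ℝ} (h : x ≤ 0) : cl x = 0 := by
  unfold cl; rw [min_eq_right (by linarith)]; exact max_eq_left h

theorem cl_of_one_le {x : ℝ} (h : 1 ≤ x) : cl x = 1 := by
  unfold cl; rw [min_eq_left h]; exact max_eq_right zero_le_one

theorem cl_of_mem {x : ℝ} (h0 : 0 ≤ x) (h1 : x ≤ 1) : cl x = x := by
  unfold cl; rw [min_eq_right h1]; exact max_eq_right h0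

theorem continuous_cl : Continuous cl := by
  unfold cl; fun_prop

variable {E : Type} [DecidableEq E]

theorem cpt_zero (e e' : E) : cpt e 0 = cpt e' 0 := by
  unfold cpt; simp

theorem cpt_one (e e' : E) : cpt e 1 = cpt e' 1 := by
  unfold cpt; simp

theorem mk_zero (e e' : E) : Gam.mk e 0 = Gam.mk e' 0 := Subtype.ext (cpt_zero e e')

theorem mk_one (e e' : E) : Gam.mk e 1 = Gam.mk e' 1 := Subtype.ext (cpt_one e e')

theorem cpt_eq {e e' : E} {t t' : I} (h : cpt e t = cpt e' t') :
    t = t' ∧ (e = e' ∨ t = 0 ∨ t = 1) := by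
  have h1 : (t : ℝ) = t' := congrArg Prod.fst h
  have ht : t = t' := Subtype.ext h1
  refine ⟨ht, ?_⟩
  by_cases he : e = e'
  · exact Or.inl he
  · right
    have h2 := congrFun (congrArg Prod.snd h) e
    simp only [cpt, if_true, if_neg he] at h2
    rcases mul_eq_zero.1 h2 with h3 | h3
    · left; exact Subtype.ext h3
    · right; apply Subtype.ext; show (t : ℝ) = 1; linarith

theorem mk_eq {e e' : E} {t t' : I} (h : Gam.mk e t = Gam.mk e' t') :
    t = t' ∧ (e = e' ∨ t = 0 ∨ t = 1) := cpt_eq (congrArg Subtype.val h)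

theorem mk_surj (x : Gam E) : ∃ (e : E) (t : I), x = Gam.mk e t := by
  obtain ⟨z, e, t, h⟩ := x
  exact ⟨e, t, Subtype.ext h⟩

theorem continuous_cpt (e : E) : Continuous (fun t : I => cpt e t) := by
  unfold cpt
  refine Continuous.prodMk continuous_subtype_val ?_
  refine continuous_pi fun e' => ?_
  split_ifs
  · fun_prop
  · exact continuous_const

theorem continuous_mk (e : E) : Continuous (fun t : I => Gam.mk e t) :=
  Continuous.subtype_mk (continuous_cpt e) _

instance : T2Space (Gam E) :=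
  inferInstanceAs (T2Space {z : ℝ × (E → ℝ) // ∃ (e : E) (t : I), z = cpt e t})

instance [Countable E] : SecondCountableTopology (Gam E) :=
  TopologicalSpace.Subtype.secondCountableTopology {z : ℝ × (E → ℝ) | ∃ (e : E) (t : I), z = cpt e t}

instance [Finite E] : CompactSpace (Gam E) := by
  constructor
  have : (Set.univ : Set (Gam E)) = ⋃ e : E, Set.range (fun t : I => Gam.mk e t) := by
    symm
    rw [Set.eq_univ_iff_forall]
    intro x
    obtain ⟨e, t, h⟩ := mk_surj x
    exact Set.mem_iUnion.2 ⟨e, t, h.symm⟩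
  rw [this]
  exact isCompact_iUnion fun e => isCompact_range (continuous_mk e)

theorem continuous_of_edges [Finite E] {Z : Type*} [TopologicalSpace Z] (F : Gam E → Z)
    (h : ∀ e, Continuous (fun t : I => F (Gam.mk e t))) : Continuous F := by
  rw [continuous_iff_isClosed]
  intro C hC
  have : F ⁻¹' C = ⋃ e : E, (fun t : I => Gam.mk e t) '' ((fun t : I => F (Gam.mk e t)) ⁻¹' C) := by
    ext x
    constructor
    · intro hx
      obtain ⟨e, t, rfl⟩ := mk_surj x
      exact Set.mem_iUnion.2 ⟨e, t, hx, rfl⟩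
    · intro hx
      obtain ⟨e, t, ht, rfl⟩ := Set.mem_iUnion.1 hx
      exact ht
  rw [this]
  refine isClosed_iUnion_of_finite fun e => ?_
  exact ((hC.preimage (h e)).isCompact.image (continuous_mk e)).isClosed

theorem exists_desc [Finite E] [Nonempty E] {Z : Type*} [TopologicalSpace Z] (F : E → C(I, Z))
    (h0 : ∀ e e', F e 0 = F e' 0) (h1 : ∀ e e', F e 1 = F e' 1) :
    ∃ G : C(Gam E, Z), ∀ e t, G (Gam.mk e t) = F e t := by
  choose ed pr hmk using (mk_surj (E := E))
  have key : ∀ e t, F (ed (Gam.mk e t)) (pr (Gam.mk e t)) = F e t := by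
    intro e t
    have h := mk_eq (hmk (Gam.mk e t))
    obtain ⟨h2, h3⟩ := h
    rw [← h2]
    rcases h3 with h3 | h3 | h3
    · rw [← h3]
    · subst h3; exact h0 _ _
    · subst h3; exact h1 _ _
  refine ⟨⟨fun x => F (ed x) (pr x), ?_⟩, key⟩
  apply continuous_of_edges
  intro e
  simp only [key]
  exact (F e).continuous

theorem exists_piece (s : ℕ) (t : I) :
    ∃ j, j < 2 * s + 1 ∧ ∃ τ : I, (2 * s + 1 : ℝ) * t = j + τ := by
  have h0 : (0 : ℝ) ≤ t := t.2.1
  have h1 : (t : ℝ) ≤ 1 := t.2.2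
  have hs : (0 : ℝ) ≤ s := Nat.cast_nonneg s
  set x : ℝ := (2 * s + 1 : ℝ) * t with hx
  have hx0 : 0 ≤ x := by positivity
  have hxn : x ≤ 2 * s + 1 := by nlinarith
  by_cases hlt : x < 2 * s + 1
  · refine ⟨⌊x⌋₊, ?_, ⟨x - ⌊x⌋₊, ?_, ?_⟩, ?_⟩
    · rw [Nat.floor_lt hx0]; push_cast; exact hlt
    · have := Nat.floor_le hx0; linarith
    · have := Nat.lt_floor_add_one x; linarith
    · show x = _; simp
  · refine ⟨2 * s, by omega, 1, ?_⟩
    have : x = 2 * s + 1 := le_antisymm hxn (not_lt.1 hlt)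
    rw [this]; push_cast; simp

theorem wpt_eq (s : ℕ) (a : ℕ → E) (t τ : I) (j : ℕ) (hj : j < 2 * s + 1)
    (h : (2 * s + 1 : ℝ) * t = j + τ) :
    wpt s a t = cpt (a j) (if Even j then τ else σ τ) := by
  have h0 : (0 : ℝ) ≤ τ := τ.2.1
  have h1 : (τ : ℝ) ≤ 1 := τ.2.2
  have c1 : ∀ i, i < j → cl ((2 * s + 1 : ℝ) * t - i) = 1 := by
    intro i hi
    apply cl_of_one_le
    have : (i : ℝ) + 1 ≤ j := by exact_mod_cast hi
    rw [h]; linarith
  have c2 : ∀ i, j < i → cl ((2 * s + 1 : ℝ) * t - i) = 0 := by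
    intro i hi
    apply cl_of_nonpos
    have : (j : ℝ) + 1 ≤ i := by exact_mod_cast hi
    rw [h]; linarith
  have c3 : cl ((2 * s + 1 : ℝ) * t - j) = τ := by
    rw [h]; simp only [add_sub_cancel_left]; exact cl_of_mem h0 h1
  unfold wpt cpt
  refine Prod.ext ?_ ?_
  · simp only
    have hsub : Finset.range (j + 1) ⊆ Finset.range (2 * s + 1) := by
      intro x hx; simp only [Finset.mem_range] at *; omega
    rw [← Finset.sum_subset hsub]
    · rw [Finset.sum_range_succ, c3]
      have : ∑ i ∈ Finset.range j, (-1 : ℝ) ^ i * cl ((2 * s + 1) * t - i)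
          = ∑ i ∈ Finset.range j, (-1 : ℝ) ^ i := by
        apply Finset.sum_congr rfl
        intro i hi
        rw [c1 i (Finset.mem_range.1 hi), mul_one]
      rw [this, neg_one_geom_sum]
      by_cases he : Even j
      · simp [he, he.neg_one_pow]
      · rw [Nat.not_even_iff_odd] at he
        have he' : ¬ Even j := Nat.not_even_iff_odd.2 he
        rw [if_neg he', if_neg he', he.neg_one_pow, unitInterval.coe_symm_eq]; ring
    · intro i _ hi
      rw [c2 i (by simp only [Finset.mem_range] at hi; omega), mul_zero]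
  · funext e'
    simp only
    rw [Finset.sum_eq_single j]
    · rw [c3]
      by_cases he : Even j
      · simp [he]
      · rw [if_neg he, unitInterval.coe_symm_eq]
        split_ifs <;> ring
    · intro i _ hi
      rcases lt_or_gt_of_ne hi with hi | hi
      · rw [c1 i hi]; simp
      · rw [c2 i hi]; simp
    · intro hh; exact absurd (Finset.mem_range.2 hj) hh

theorem wpt_mem (s : ℕ) (a : ℕ → E) (t : I) : ∃ (e : E) (t' : I), wpt s a t = cpt e t' := by
  obtain ⟨j, hj, τ, h⟩ := exists_piece s t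
  exact ⟨_, _, wpt_eq s a t τ j hj h⟩

/-- The path of a word, as a path in the graph. -/
def wmk (s : ℕ) (a : ℕ → E) (t : I) : Gam E := ⟨wpt s a t, wpt_mem s a t⟩

theorem wmk_eq (s : ℕ) (a : ℕ → E) (t τ : I) (j : ℕ) (hj : j < 2 * s + 1)
    (h : (2 * s + 1 : ℝ) * t = j + τ) :
    wmk s a t = Gam.mk (a j) (if Even j then τ else σ τ) :=
  Subtype.ext (wpt_eq s a t τ j hj h)

theorem wmk_zero (s : ℕ) (a : ℕ → E) (e : E) : wmk s a 0 = Gam.mk e 0 := by
  rw [wmk_eq s a 0 0 0 (by omega) (by simp)]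
  simp only [Even.zero, if_true]
  exact mk_zero _ _

theorem wmk_one (s : ℕ) (a : ℕ → E) (e : E) : wmk s a 1 = Gam.mk e 1 := by
  rw [wmk_eq s a 1 1 (2 * s) (by omega) (by push_cast; simp)]
  rw [if_pos (by simp)]
  exact mk_one _ _

theorem continuous_wmk (s : ℕ) (a : ℕ → E) : Continuous (wmk s a) := by
  refine Continuous.subtype_mk ?_ _
  unfold wpt
  have hc : ∀ j : ℕ, Continuous (fun t : I => cl ((2 * s + 1 : ℝ) * t - j)) := by
    intro j
    exact continuous_cl.comp (by fun_prop)
  refine Continuous.prodMk ?_ ?_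
  · exact continuous_finsetSum _ fun j _ => continuous_const.mul (hc j)
  · refine continuous_pi fun e' => ?_
    refine continuous_finsetSum _ fun j _ => ?_
    split_ifs
    · exact (hc j).mul (continuous_const.sub (hc j))
    · exact continuous_const

/-- reversing time in a word -/
theorem wmk_symm (s : ℕ) (a : ℕ → E) (t τ : I) (j : ℕ) (hj : j < 2 * s + 1)
    (h : (2 * s + 1 : ℝ) * t = j + τ) :
    wmk s a (σ t) = Gam.mk (a (2 * s - j)) (σ (if Even j then τ else σ τ)) := by
  have hle : j ≤ 2 * s := by omega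
  rw [wmk_eq s a (σ t) (σ τ) (2 * s - j) (by omega)]
  · have hpar : Even (2 * s - j) ↔ Even j := by
      rw [Nat.even_sub hle]; simp
    by_cases he : Even j
    · rw [if_pos (hpar.2 he), if_pos he]
    · rw [if_neg (fun h => he (hpar.1 h)), if_neg he]
  · rw [unitInterval.coe_symm_eq, unitInterval.coe_symm_eq, Nat.cast_sub hle]
    push_cast
    linarith

theorem wmk_congr (s : ℕ) {a b : ℕ → E} (h : ∀ j, j < 2 * s + 1 → a j = b j) (t : I) :
    wmk s a t = wmk s b t := by
  obtain ⟨j, hj, τ, ht⟩ := exists_piece s t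
  rw [wmk_eq s a t τ j hj ht, wmk_eq s b t τ j hj ht, h j hj]

theorem isPreconnected_edge (e : E) : IsPreconnected (Set.range fun t : I => Gam.mk e t) :=
  isPreconnected_range (continuous_mk e)

instance [Nonempty E] : ConnectedSpace (Gam E) := by
  obtain ⟨e0⟩ := ‹Nonempty E›
  have : Nonempty (Gam E) := ⟨Gam.mk e0 0⟩
  have : PreconnectedSpace (Gam E) := by
    constructor
    apply isPreconnected_of_forall (Gam.mk e0 0)
    intro y _
    obtain ⟨e, t, rfl⟩ := mk_surj y
    refine ⟨Set.range fun t : I => Gam.mk e t, Set.subset_univ _, ⟨0, mk_zero _ _⟩, ⟨t, rfl⟩,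
      isPreconnected_edge e⟩
  exact ⟨inferInstance⟩

end Pool.Agent.Work.MP_52b37d_gt
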