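import Mathlib

set_option autoImplicit false

open unitInterval

namespace Pool.Agent.Work.MP_52b37d_gt

/-- The alphabet of a level: the edges of two directed cycles of lengths `k` and `k + 1`
glued at one vertex. -/
abbrev Al (k : ℕ) : Type := ZMod k ⊕ ZMod (k + 1)

/-- Consecutive edges in the wedge of the two directed cycles. -/
def Rel (k : ℕ) : Al k → Al k → Prop
  | Sum.inl i, Sum.inl j => j = i + 1
  | Sum.inr i, Sum.inr j => j = i + 1
  | Sum.inl i, Sum.inr j => i + 1 = 0 ∧ j = 0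
  | Sum.inr i, Sum.inl j => i + 1 = 0 ∧ j = 0

/-- The alternating count. -/
def kap (k : ℕ) : Al k → ℤ
  | Sum.inl _ => -1
  | Sum.inr _ => 1

/-- The graph with two vertices and edge set `E`, realised in `ℝ × (E → ℝ)`. -/
def cpt {E : Type} [DecidableEq E] (e : E) (t : I) : ℝ × (E → ℝ) :=
  ((t : ℝ), fun e' => if e' = e then (t : ℝ) * (1 - t) else 0)

/-- The graph as a type. -/
def Gam (E : Type) [DecidableEq E] : Type :=
  {z : ℝ × (E → ℝ) // ∃ (e : E) (t : I), z = cpt e t}

instance (E : Type) [DecidableEq E] : TopologicalSpace (Gam E) :=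
  inferInstanceAs (TopologicalSpace {z : ℝ × (E → ℝ) // ∃ (e : E) (t : I), z = cpt e t})

/-- The point with parameter `t` on the edge `e`. -/
def Gam.mk {E : Type} [DecidableEq E] (e : E) (t : I) : Gam E := ⟨cpt e t, e, t, rfl⟩

/-- clamp to `[0,1]` -/
def cl (x : ℝ) : ℝ := max 0 (min 1 x)

/-- The path running the word `a 0, (a 1)⁻¹, a 2, …, a (2 s)`. -/
def wpt {E : Type} [DecidableEq E] (s : ℕ) (a : ℕ → E) (t : I) : ℝ × (E → ℝ) :=
  (∑ j ∈ Finset.range (2 * s + 1), (-1 : ℝ) ^ j * cl ((2 * s + 1) * t - j),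
   fun e' => ∑ j ∈ Finset.range (2 * s + 1),
     if e' = a j then cl ((2 * s + 1) * t - j) * (1 - cl ((2 * s + 1) * t - j)) else 0)

end Pool.Agent.Work.MP_52b37d_gt
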