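import Pool.Agent.Work.MP_52b37d_gt.Basic

set_option autoImplicit false

open unitInterval

namespace Pool.Agent.Work.MP_52b37d_gt

variable {E : Type} [DecidableEq E]

/-- sets given edge by edge -/
def glue (S : E → Set I) : Set (Gam E) := {x | ∃ (e : E) (t : I), x = Gam.mk e t ∧ t ∈ S e}

theorem mk_mem_glue {S : E → Set I} (h0 : ∀ e e', (0 : I) ∈ S e → (0 : I) ∈ S e')
    (h1 : ∀ e e', (1 : I) ∈ S e → (1 : I) ∈ S e') {e : E} {t : I} :
    Gam.mk e t ∈ glue S ↔ t ∈ S e := by
  constructor
  · rintro ⟨e', t', h, ht⟩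
    obtain ⟨rfl, h2⟩ := mk_eq h
    rcases h2 with rfl | rfl | rfl
    · exact ht
    · exact h0 _ _ ht
    · exact h1 _ _ ht
  · intro h; exact ⟨e, t, rfl, h⟩

theorem isOpen_of_edges [Finite E] {U : Set (Gam E)}
    (h : ∀ e, IsOpen {t : I | Gam.mk e t ∈ U}) : IsOpen U := by
  rw [← isClosed_compl_iff]
  have : Uᶜ = ⋃ e : E, (fun t : I => Gam.mk e t) '' ({t : I | Gam.mk e t ∈ U}ᶜ) := by
    ext x
    constructor
    · intro hx
      obtain ⟨e, t, rfl⟩ := mk_surj x
      exact Set.mem_iUnion.2 ⟨e, t, hx, rfl⟩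
    · intro hx
      obtain ⟨e, t, ht, rfl⟩ := Set.mem_iUnion.1 hx
      exact ht
  rw [this]
  refine isClosed_iUnion_of_finite fun e => ?_
  exact ((h e).isClosed_compl.isCompact.image (continuous_mk e)).isClosed

theorem isOpen_glue [Finite E] {S : E → Set I} (h0 : ∀ e e', (0 : I) ∈ S e → (0 : I) ∈ S e')
    (h1 : ∀ e e', (1 : I) ∈ S e → (1 : I) ∈ S e') (hS : ∀ e, IsOpen (S e)) :
    IsOpen (glue S) := by
  apply isOpen_of_edges
  intro e
  simp only [mk_mem_glue h0 h1]
  exact hS e

/-- A separation of a preconnected set given edge by edge is impossible. -/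
theorem no_separation [Finite E] {K : Set (Gam E)} (hK : IsPreconnected K) (S S' : E → Set I)
    (h0 : ∀ e e', (0 : I) ∈ S e → (0 : I) ∈ S e') (h1 : ∀ e e', (1 : I) ∈ S e → (1 : I) ∈ S e')
    (h0' : ∀ e e', (0 : I) ∈ S' e → (0 : I) ∈ S' e') (h1' : ∀ e e', (1 : I) ∈ S' e → (1 : I) ∈ S' e')
    (hS : ∀ e, IsOpen (S e)) (hS' : ∀ e, IsOpen (S' e)) (hd : ∀ e t, t ∈ S e → t ∈ S' e → False)
    (hc : ∀ e t, Gam.mk e t ∈ K → t ∈ S e ∨ t ∈ S' e) {a b : E} {t t' : I}
    (ha : Gam.mk a t ∈ K) (hb : Gam.mk b t' ∈ K) (hat : t ∈ S a) (hbt : t' ∈ S' b) : False := by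
  have hsub : K ⊆ glue S ∪ glue S' := by
    intro x hx
    obtain ⟨e, r, rfl⟩ := mk_surj x
    rcases hc e r hx with h | h
    · exact Or.inl ⟨e, r, rfl, h⟩
    · exact Or.inr ⟨e, r, rfl, h⟩
  obtain ⟨x, hxK, hxS, hxS'⟩ := hK _ _ (isOpen_glue h0 h1 hS) (isOpen_glue h0' h1' hS') hsub
    ⟨_, ha, ⟨a, t, rfl, hat⟩⟩ ⟨_, hb, ⟨b, t', rfl, hbt⟩⟩
  obtain ⟨e, r, rfl⟩ := mk_surj x
  exact hd e r ((mk_mem_glue h0 h1).1 hxS) ((mk_mem_glue h0' h1').1 hxS')

theorem half_edge [Finite E] {K : Set (Gam E)} (hK : IsPreconnected K) (hKc : IsClosed K)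
    {a b : E} (hab : a ≠ b) (T : I) (ha : Gam.mk a T ∈ K) (hb : Gam.mk b (σ T) ∈ K) :
    ∃ e, (∀ t : I, (t : ℝ) ≤ 1 / 2 → Gam.mk e t ∈ K) ∨ (∀ t : I, 1 / 2 ≤ (t : ℝ) → Gam.mk e t ∈ K) := by
  by_contra hcon
  push Not at hcon
  have hu : ∀ e, ∃ u : I, 0 < (u : ℝ) ∧ (u : ℝ) ≤ 1 / 2 ∧ Gam.mk e u ∉ K := by
    intro e
    obtain ⟨⟨u, hu1, hu2⟩, -⟩ := hcon e
    by_cases h0 : (0 : ℝ) < u
    · exact ⟨u, h0, hu1, hu2⟩
    · have hu0 : u = 0 := Subtype.ext (le_antisymm (not_lt.1 h0) u.2.1)
      subst hu0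
      have hopen : IsOpen {t : I | Gam.mk e t ∉ K} := by
        have := hKc.isOpen_compl.preimage (continuous_mk e)
        exact this
      obtain ⟨ε, hε, hball⟩ := Metric.isOpen_iff.1 hopen 0 hu2
      have hm : 0 < min (ε / 2) (1 / 2) := by positivity
      refine ⟨⟨min (ε / 2) (1 / 2), hm.le, ?_⟩, hm, min_le_right _ _, ?_⟩
      · exact (min_le_right _ _).trans (by norm_num)
      · apply hball
        rw [Metric.mem_ball, Subtype.dist_eq, Real.dist_eq]
        simp only [Set.Icc.coe_zero, sub_zero, abs_of_pos hm]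
        exact (min_le_left _ _).trans_lt (by linarith)
  have hv : ∀ e, ∃ v : I, (v : ℝ) < 1 ∧ 1 / 2 ≤ (v : ℝ) ∧ Gam.mk e v ∉ K := by
    intro e
    obtain ⟨-, ⟨u, hu1, hu2⟩⟩ := hcon e
    by_cases h0 : (u : ℝ) < 1
    · exact ⟨u, h0, hu1, hu2⟩
    · have hu0 : u = 1 := Subtype.ext (le_antisymm u.2.2 (not_lt.1 h0))
      subst hu0
      have hopen : IsOpen {t : I | Gam.mk e t ∉ K} := by
        have := hKc.isOpen_compl.preimage (continuous_mk e)
        exact this
      obtain ⟨ε, hε, hball⟩ := Metric.isOpen_iff.1 hopen 1 hu2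
      have hm : 0 < min (ε / 2) (1 / 2) := by positivity
      have hm2 : min (ε / 2) (1 / 2) ≤ (1 / 2 : ℝ) := min_le_right _ _
      refine ⟨⟨1 - min (ε / 2) (1 / 2), by linarith, by linarith⟩, ?_, ?_, ?_⟩
      · show 1 - min (ε / 2) (1 / 2) < 1; linarith
      · show 1 / 2 ≤ 1 - min (ε / 2) (1 / 2); linarith
      · apply hball
        rw [Metric.mem_ball, Subtype.dist_eq, Real.dist_eq]
        simp only [Set.Icc.coe_one]
        rw [abs_of_nonpos (by linarith)]
        have : min (ε / 2) (1 / 2) ≤ ε / 2 := min_le_left _ _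
        linarith
  choose u hu0 hu1 hu2 using hu
  choose v hv0 hv1 hv2 using hv
  have lt_iff : ∀ x y : I, x < y ↔ (x : ℝ) < y := fun x y => Iff.rfl
  have hne : ∀ e t, Gam.mk e t ∈ K → t ≠ u e ∧ t ≠ v e := by
    intro e t h
    constructor
    · rintro rfl; exact hu2 e h
    · rintro rfl; exact hv2 e h
  have z0 : ((0 : I) : ℝ) = 0 := rfl
  have z1 : ((1 : I) : ℝ) = 1 := rfl
  rcases lt_trichotomy T (u a) with h | h | h
  · -- x in the `p`-part
    refine no_separation hK (fun e => {t | t < u e}) (fun e => {t | u e < t})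
      ?_ ?_ ?_ ?_ ?_ ?_ ?_ ?_ ha hb h ?_
    · intro e e' _; show (0 : I) < u e'; rw [lt_iff]; exact hu0 e'
    · intro e e' h1
      have h1' : (1 : I) < u e := h1
      rw [lt_iff] at h1'
      have := hu1 e; rw [z1] at h1'; linarith
    · intro e e' h1
      have h1' : u e < (0 : I) := h1
      rw [lt_iff, z0] at h1'
      have := hu0 e; linarith
    · intro e e' _
      show u e' < (1 : I)
      rw [lt_iff, z1]
      have := hu1 e'; linarith
    · intro e; exact isOpen_Iio
    · intro e; exact isOpen_Ioi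
    · intro e t h1 h2
      have h1' : t < u e := h1
      have h2' : u e < t := h2
      exact lt_asymm h1' h2'
    · intro e t hm; exact lt_or_gt_of_ne (hne e t hm).1
    · show u b < σ T
      rw [lt_iff, unitInterval.coe_symm_eq]
      have h1 := hu1 a
      have h2 := hu1 b
      rw [lt_iff] at h
      linarith
  · exact (hne a T ha).1 h
  · rcases lt_trichotomy T (v a) with h' | h' | h'
    · -- middle part
      refine no_separation hK (fun e => {t | e = a ∧ u a < t ∧ t < v a})
        (fun e => {t | e ≠ a ∨ t < u a ∨ v a < t})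
        ?_ ?_ ?_ ?_ ?_ ?_ ?_ ?_ ha hb ⟨rfl, h, h'⟩ (Or.inl (Ne.symm hab))
      · rintro e e' ⟨_, h1, _⟩
        rw [lt_iff, z0] at h1
        have := hu0 a; linarith
      · rintro e e' ⟨_, _, h1⟩
        rw [lt_iff, z1] at h1
        have := hv0 a; linarith
      · intro e e' _
        right; left; rw [lt_iff, z0]; exact hu0 a
      · intro e e' _
        right; right; rw [lt_iff, z1]; exact hv0 a
      · intro e
        by_cases he : e = a
        · simp only [he, true_and]
          exact isOpen_Ioo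
        · simp only [he, false_and]
          exact isOpen_empty
      · intro e
        by_cases he : e = a
        · simp only [he, ne_eq, not_true_eq_false, false_or]
          exact isOpen_Iio.union isOpen_Ioi
        · simp only [ne_eq, he, not_false_eq_true, true_or]
          exact isOpen_univ
      · rintro e t ⟨h1, h2, h3⟩ (h4 | h4 | h4)
        · exact h4 h1
        · exact lt_asymm h2 h4
        · exact lt_asymm h3 h4
      · intro e t hm
        by_cases he : e = a
        · subst he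
          obtain ⟨h1, h2⟩ := hne e t hm
          rcases lt_or_gt_of_ne h1 with h1 | h1
          · right; right; left; exact h1
          · rcases lt_or_gt_of_ne h2 with h2 | h2
            · left; exact ⟨rfl, h1, h2⟩
            · right; right; right; exact h2
        · right; left; exact he
    · exact (hne a T ha).2 h'
    · -- x in the `q`-part
      refine no_separation hK (fun e => {t | v e < t}) (fun e => {t | t < v e})
        ?_ ?_ ?_ ?_ ?_ ?_ ?_ ?_ ha hb h' ?_
      · intro e e' h1
        have h1' : v e < (0 : I) := h1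
        rw [lt_iff, z0] at h1'
        have := hv1 e; linarith
      · intro e e' _
        show v e' < (1 : I)
        rw [lt_iff, z1]
        exact hv0 e'
      · intro e e' _
        show (0 : I) < v e'
        rw [lt_iff, z0]
        have := hv1 e'; linarith
      · intro e e' h1
        have h1' : (1 : I) < v e := h1
        rw [lt_iff, z1] at h1'
        have := hv0 e; linarith
      · intro e; exact isOpen_Ioi
      · intro e; exact isOpen_Iio
      · intro e t h1 h2
        have h1' : v e < t := h1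
        have h2' : t < v e := h2
        exact lt_asymm h1' h2'
      · intro e t hm
        rcases lt_or_gt_of_ne (hne e t hm).2 with h1 | h1
        · right; exact h1
        · left; exact h1
      · show σ T < v b
        rw [lt_iff, unitInterval.coe_symm_eq]
        have h1 := hv1 a
        have h2 := hv1 b
        rw [lt_iff] at h'
        linarith

end Pool.Agent.Work.MP_52b37d_gt
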