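import Mathlib

set_option autoImplicit false

namespace Pool.Agent.Work.MP_52b37d_gt

section
variable {X : ℕ → Type} [∀ m, TopologicalSpace (X m)]

theorem isClosed_thread_eq [∀ m, T2Space (X m)] (π : ∀ m, C(X (m + 1), X m)) (i : ℕ) :
    IsClosed {x : ∀ m, X m | π i (x (i + 1)) = x i} :=
  isClosed_eq ((π i).continuous.comp (continuous_apply (i + 1))) (continuous_apply i)

theorem isClosed_threads [∀ m, T2Space (X m)] (π : ∀ m, C(X (m + 1), X m)) :
    IsClosed {x : ∀ m, X m | ∀ m, π m (x (m + 1)) = x m} := by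
  simp only [Set.setOf_forall]
  exact isClosed_iInter fun i => isClosed_thread_eq π i

theorem compactSpace_threads [∀ m, T2Space (X m)] [∀ m, CompactSpace (X m)]
    (π : ∀ m, C(X (m + 1), X m)) :
    CompactSpace {x : ∀ m, X m // ∀ m, π m (x (m + 1)) = x m} :=
  isCompact_iff_compactSpace.1 (isClosed_threads π).isCompact

theorem exists_thread_below [∀ m, Nonempty (X m)] (π : ∀ m, C(X (m + 1), X m)) :
    ∀ (N : ℕ) (z : X N), ∃ x : ∀ m, X m, (∀ i, i < N → π i (x (i + 1)) = x i) ∧ x N = z := by
  intro N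
  induction N with
  | zero =>
    intro z
    refine ⟨Function.update (fun m => Classical.arbitrary (X m)) 0 z, ?_, ?_⟩
    · intro i hi; omega
    · simp
  | succ N ih =>
    intro z
    obtain ⟨x, hx, hN⟩ := ih (π N z)
    refine ⟨Function.update x (N + 1) z, ?_, by simp⟩
    intro i hi
    by_cases h : i = N
    · subst h
      rw [Function.update_self, Function.update_of_ne (by omega), hN]
    · rw [Function.update_of_ne (by omega), Function.update_of_ne (by omega)]
      exact hx i (by omega)

theorem exists_thread_above [∀ m, Nonempty (X m)] (π : ∀ m, C(X (m + 1), X m))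
    (hsurj : ∀ m, Function.Surjective (π m)) (N : ℕ) (z : X N) :
    ∀ k, ∃ x : ∀ m, X m, (∀ i, i < N + k → π i (x (i + 1)) = x i) ∧ x N = z := by
  intro k
  induction k with
  | zero => exact exists_thread_below π N z
  | succ k ih =>
    obtain ⟨x, hx, hN⟩ := ih
    obtain ⟨z', hz'⟩ := hsurj (N + k) (x (N + k))
    refine ⟨Function.update x (N + k + 1) z', ?_, ?_⟩
    · intro i hi
      by_cases h : i = N + k
      · subst h
        rw [Function.update_self, Function.update_of_ne (by omega), hz']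
      · rw [Function.update_of_ne (by omega), Function.update_of_ne (by omega)]
        exact hx i (by omega)
    · rw [Function.update_of_ne (by omega)]; exact hN

theorem exists_thread [∀ m, Nonempty (X m)] [∀ m, T2Space (X m)] [∀ m, CompactSpace (X m)]
    (π : ∀ m, C(X (m + 1), X m)) (hsurj : ∀ m, Function.Surjective (π m)) (N : ℕ) (z : X N) :
    ∃ x : ∀ m, X m, (∀ m, π m (x (m + 1)) = x m) ∧ x N = z := by
  let S : ℕ → Set (∀ m, X m) := fun k => {x | (∀ i, i < N + k → π i (x (i + 1)) = x i) ∧ x N = z}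
  have hcl : ∀ k, IsClosed (S k) := by
    intro k
    have : S k = (⋂ i, ⋂ (_ : i < N + k), {x : ∀ m, X m | π i (x (i + 1)) = x i}) ∩
        {x | x N = z} := by
      ext x; simp [S]
    rw [this]
    refine IsClosed.inter (isClosed_iInter fun i => isClosed_iInter fun _ => isClosed_thread_eq π i) ?_
    exact isClosed_eq (continuous_apply N) continuous_const
  have hne := IsCompact.nonempty_iInter_of_sequence_nonempty_isCompact_isClosed S
    (fun k x hx => ⟨fun i hi => hx.1 i (by omega), hx.2⟩)
    (fun k => exists_thread_above π hsurj N z k) (hcl 0).isCompact hcl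
  obtain ⟨x, hx⟩ := hne
  rw [Set.mem_iInter] at hx
  exact ⟨x, fun m => (hx (m + 1)).1 m (by omega), (hx 0).2⟩

/-- In an inverse limit, agreeing at a level means agreeing below. -/
theorem thread_below {π : ∀ m, C(X (m + 1), X m)}
    {x y : ∀ m, X m} (hx : ∀ m, π m (x (m + 1)) = x m) (hy : ∀ m, π m (y (m + 1)) = y m) {N : ℕ}
    (h : x N = y N) : ∀ i, i ≤ N → x i = y i := by
  induction N with
  | zero => intro i hi; have : i = 0 := by omega
            subst this; exact h
  | succ N ih =>
    have h' : x N = y N := by rw [← hx, ← hy, h]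
    intro i hi
    by_cases hi' : i = N + 1
    · subst hi'; exact h
    · exact ih h' i (by omega)

theorem eq_univ_of_proj [∀ m, Nonempty (X m)] {π : ∀ m, C(X (m + 1), X m)}
    {K : Set {x : ∀ m, X m // ∀ m, π m (x (m + 1)) = x m}} (hK : IsClosed K)
    (h : ∀ N (z : X N), ∃ x ∈ K, x.1 N = z) : K = Set.univ := by
  rw [Set.eq_univ_iff_forall]
  intro x
  choose y hyK hy using fun N => h N (x.1 N)
  refine hK.mem_of_tendsto (b := Filter.atTop) (f := y) ?_ (Filter.Eventually.of_forall hyK)
  rw [tendsto_subtype_rng, tendsto_pi_nhds]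
  intro i
  apply tendsto_nhds_of_eventually_eq
  filter_upwards [Filter.eventually_ge_atTop i] with N hN
  exact thread_below (y N).2 x.2 (hy N) i hN

theorem connectedSpace_threads [∀ m, T2Space (X m)] [∀ m, CompactSpace (X m)]
    [∀ m, ConnectedSpace (X m)] (π : ∀ m, C(X (m + 1), X m))
    (hsurj : ∀ m, Function.Surjective (π m)) :
    ConnectedSpace {x : ∀ m, X m // ∀ m, π m (x (m + 1)) = x m} := by
  have hcomp := compactSpace_threads π
  have hne : Nonempty {x : ∀ m, X m // ∀ m, π m (x (m + 1)) = x m} := by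
    obtain ⟨x, hx, -⟩ := exists_thread π hsurj 0 (Classical.arbitrary (X 0))
    exact ⟨⟨x, hx⟩⟩
  have hpc : PreconnectedSpace {x : ∀ m, X m // ∀ m, π m (x (m + 1)) = x m} := by
    rw [preconnectedSpace_iff_clopen]
    intro A hA
    by_contra hcon
    push Not at hcon
    obtain ⟨h1, h2⟩ := hcon
    have hA1 : A.Nonempty := h1
    have hA2 : (Aᶜ).Nonempty := by
      rw [Set.nonempty_compl]; exact h2
    have hprc : ∀ N, Continuous
        (fun x : {x : ∀ m, X m // ∀ m, π m (x (m + 1)) = x m} => x.1 N) :=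
      fun N => (continuous_apply N).comp continuous_subtype_val
    -- at each level the two projections meet
    have hmeet : ∀ N, ∃ a ∈ A, ∃ b ∈ Aᶜ, a.1 N = b.1 N := by
      intro N
      have c1 : IsClosed ((fun x : {x : ∀ m, X m // ∀ m, π m (x (m + 1)) = x m} => x.1 N) '' A) :=
        (hA.1.isCompact.image (hprc N)).isClosed
      have c2 : IsClosed ((fun x : {x : ∀ m, X m // ∀ m, π m (x (m + 1)) = x m} => x.1 N) '' Aᶜ) :=
        (hA.compl.1.isCompact.image (hprc N)).isClosed
      have hcov : (Set.univ : Set (X N)) ⊆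
          ((fun x : {x : ∀ m, X m // ∀ m, π m (x (m + 1)) = x m} => x.1 N) '' A) ∪
          ((fun x : {x : ∀ m, X m // ∀ m, π m (x (m + 1)) = x m} => x.1 N) '' Aᶜ) := by
        intro z _
        obtain ⟨x, hx, hz⟩ := exists_thread π hsurj N z
        by_cases hxA : (⟨x, hx⟩ : {x : ∀ m, X m // ∀ m, π m (x (m + 1)) = x m}) ∈ A
        · exact Or.inl ⟨_, hxA, hz⟩
        · exact Or.inr ⟨_, hxA, hz⟩
      have := isPreconnected_closed_iff.1 (isPreconnected_univ (α := X N)) _ _ c1 c2 hcov
        (by obtain ⟨a, ha⟩ := hA1; exact ⟨_, trivial, a, ha, rfl⟩)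
        (by obtain ⟨a, ha⟩ := hA2; exact ⟨_, trivial, a, ha, rfl⟩)
      obtain ⟨z, -, ⟨a, ha, haz⟩, ⟨b, hb, hbz⟩⟩ := this
      exact ⟨a, ha, b, hb, haz.trans hbz.symm⟩
    let S : ℕ → Set ({x : ∀ m, X m // ∀ m, π m (x (m + 1)) = x m} ×
        {x : ∀ m, X m // ∀ m, π m (x (m + 1)) = x m}) :=
      fun N => {p | p.1 ∈ A ∧ p.2 ∈ Aᶜ ∧ p.1.1 N = p.2.1 N}
    have hcl : ∀ N, IsClosed (S N) := by
      intro N
      refine IsClosed.inter (hA.1.preimage continuous_fst) (IsClosed.inter
        (hA.compl.1.preimage continuous_snd) (isClosed_eq ?_ ?_))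
      · exact (hprc N).comp continuous_fst
      · exact (hprc N).comp continuous_snd
    have hne2 := IsCompact.nonempty_iInter_of_sequence_nonempty_isCompact_isClosed S
      (fun N p hp => ⟨hp.1, hp.2.1, thread_below p.1.2 p.2.2 hp.2.2 N (by omega)⟩)
      (fun N => by obtain ⟨a, ha, b, hb, hab⟩ := hmeet N; exact ⟨(a, b), ha, hb, hab⟩)
      (hcl 0).isCompact hcl
    obtain ⟨⟨a, b⟩, hab⟩ := hne2
    rw [Set.mem_iInter] at hab
    have : a = b := Subtype.ext (funext fun N => (hab N).2.2)
    subst this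
    exact (hab 0).2.1 (hab 0).1
  exact { toPreconnectedSpace := hpc, toNonempty := hne }

end

end Pool.Agent.Work.MP_52b37d_gt
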