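import Pool.Agent.Work.MP_52b37d_gt.Half
import Pool.Agent.Work.MP_52b37d_gt.Limit

set_option autoImplicit false

open unitInterval

namespace Pool.Agent.Work.MP_52b37d_gt

/-- The parameter `(j + τ) / (2 s + 1)`. -/
noncomputable def pc (s j : ℕ) (hj : j < 2 * s + 1) (τ : I) : I :=
  ⟨((j : ℝ) + τ) / (2 * s + 1), by
    have h0 : (0 : ℝ) ≤ τ := τ.2.1
    positivity, by
    have h1 : (τ : ℝ) ≤ 1 := τ.2.2
    have h2 : (j : ℝ) + 1 ≤ 2 * s + 1 := by exact_mod_cast hj
    rw [div_le_one (by positivity)]; linarith⟩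

theorem pc_spec (s j : ℕ) (hj : j < 2 * s + 1) (τ : I) :
    (2 * s + 1 : ℝ) * (pc s j hj τ : ℝ) = j + τ := by
  have : (2 * s + 1 : ℝ) ≠ 0 := by positivity
  show (2 * s + 1 : ℝ) * (((j : ℝ) + τ) / (2 * s + 1)) = j + τ
  field_simp

section maps

variable {E E' : Type} [Fintype E] [DecidableEq E] [Fintype E'] [DecidableEq E']
  [Nonempty E] [Nonempty E']

theorem exists_pi (s : ℕ) (α : E' → ℕ → E) :
    ∃ π : C(Gam E', Gam E), ∀ e' t, π (Gam.mk e' t) = wmk s (α e') t := by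
  refine exists_desc (fun e' => ⟨wmk s (α e'), continuous_wmk s (α e')⟩) ?_ ?_
  · intro e e'
    show wmk s (α e) 0 = wmk s (α e') 0
    rw [wmk_zero s (α e) (Classical.arbitrary E), wmk_zero s (α e') (Classical.arbitrary E)]
  · intro e e'
    show wmk s (α e) 1 = wmk s (α e') 1
    rw [wmk_one s (α e) (Classical.arbitrary E), wmk_one s (α e') (Classical.arbitrary E)]

theorem exists_phi (s : ℕ) (β : E' → ℕ → E) :
    ∃ φ : C(Gam E', Gam E), ∀ e' t, φ (Gam.mk e' t) = wmk s (β e') (σ t) := by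
  refine exists_desc
    (fun e' => ⟨fun t => wmk s (β e') (σ t), (continuous_wmk s (β e')).comp continuous_symm⟩) ?_ ?_
  · intro e e'
    show wmk s (β e) (σ 0) = wmk s (β e') (σ 0)
    rw [symm_zero, wmk_one s (β e) (Classical.arbitrary E), wmk_one s (β e') (Classical.arbitrary E)]
  · intro e e'
    show wmk s (β e) (σ 1) = wmk s (β e') (σ 1)
    rw [symm_one, wmk_zero s (β e) (Classical.arbitrary E),
      wmk_zero s (β e') (Classical.arbitrary E)]

end maps

/-- A sequence of alphabets with two commuting alternating substitutions. -/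
structure Sys where
  E : ℕ → Type
  [fin : ∀ m, Fintype (E m)]
  [dec : ∀ m, DecidableEq (E m)]
  [ne : ∀ m, Nonempty (E m)]
  R : ∀ m, E m → E m → Prop
  s : ℕ → ℕ
  α : ∀ m, E (m + 1) → ℕ → E m
  β : ∀ m, E (m + 1) → ℕ → E m
  κ : ∀ m, E m → ℤ
  hs : ∀ m, 1 ≤ s m
  irr : ∀ m e, ¬ R m e e
  c1 : ∀ m e' j, j < 2 * s m + 1 → R m (α m e' j) (β m e' (2 * s m - j))
  c2 : ∀ m e' e'', R (m + 1) e' e'' → ∀ j, j < 2 * s m + 1 → β m e' j = α m e'' j
  c3 : ∀ m e' e, ∑ j ∈ Finset.range (2 * s m + 1),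
    (-1 : ℤ) ^ j * (if α m e' j = e then 1 else 0) = κ m e
  κne : ∀ m e, κ m e ≠ 0

attribute [instance] Sys.fin Sys.dec Sys.ne

namespace Sys

variable (S : Sys)

theorem full (m : ℕ) (e' : S.E (m + 1)) (e : S.E m) :
    ∃ j, j < 2 * S.s m + 1 ∧ S.α m e' j = e := by
  by_contra hcon
  push Not at hcon
  apply S.κne m e
  rw [← S.c3 m e' e]
  apply Finset.sum_eq_zero
  intro j hj
  rw [if_neg (hcon j (Finset.mem_range.1 hj)), mul_zero]

/-- bonding maps -/
noncomputable def π (m : ℕ) : C(Gam (S.E (m + 1)), Gam (S.E m)) :=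
  (exists_pi (S.s m) (S.α m)).choose

theorem π_mk (m : ℕ) (e' : S.E (m + 1)) (t : I) :
    S.π m (Gam.mk e' t) = wmk (S.s m) (S.α m e') t :=
  (exists_pi (S.s m) (S.α m)).choose_spec e' t

/-- the maps inducing the self-map -/
noncomputable def φ (m : ℕ) : C(Gam (S.E (m + 1)), Gam (S.E m)) :=
  (exists_phi (S.s m) (S.β m)).choose

theorem φ_mk (m : ℕ) (e' : S.E (m + 1)) (t : I) :
    S.φ m (Gam.mk e' t) = wmk (S.s m) (S.β m e') (σ t) :=
  (exists_phi (S.s m) (S.β m)).choose_spec e' t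

/-- The two maps at a point: consecutive letters, complementary parameters. -/
theorem pair (m : ℕ) (x : Gam (S.E (m + 1))) :
    ∃ (a b : S.E m) (T : I), S.R m a b ∧ S.π m x = Gam.mk a T ∧ S.φ m x = Gam.mk b (σ T) := by
  obtain ⟨e', t, rfl⟩ := mk_surj x
  obtain ⟨j, hj, τ, h⟩ := exists_piece (S.s m) t
  refine ⟨_, _, if Even j then τ else σ τ, S.c1 m e' j hj, ?_, ?_⟩
  · rw [π_mk, wmk_eq (S.s m) _ t τ j hj h]
  · rw [φ_mk, wmk_symm (S.s m) _ t τ j hj h]

theorem comm (m : ℕ) (x : Gam (S.E (m + 2))) :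
    S.π m (S.φ (m + 1) x) = S.φ m (S.π (m + 1) x) := by
  obtain ⟨a, b, T, hR, h1, h2⟩ := S.pair (m + 1) x
  rw [h1, h2, π_mk, φ_mk]
  exact (wmk_congr (S.s m) (S.c2 m a b hR) (σ T)).symm

theorem edge_cover (m : ℕ) (e' : S.E (m + 1)) (e : S.E m) (t : I) :
    ∃ t' : I, S.π m (Gam.mk e' t') = Gam.mk e t := by
  obtain ⟨j, hj, rfl⟩ := S.full m e' e
  refine ⟨pc (S.s m) j hj (if Even j then t else σ t), ?_⟩
  rw [π_mk, wmk_eq (S.s m) _ _ (if Even j then t else σ t) j hj (pc_spec _ _ hj _)]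
  by_cases he : Even j
  · simp [he]
  · simp [he]

theorem π_surjective (m : ℕ) : Function.Surjective (S.π m) := by
  intro z
  obtain ⟨e, t, rfl⟩ := mk_surj z
  obtain ⟨t', ht'⟩ := S.edge_cover m (Classical.arbitrary _) e t
  exact ⟨_, ht'⟩

/-- the continuum -/
abbrev M : Type := {x : ∀ m, Gam (S.E m) // ∀ m, S.π m (x (m + 1)) = x m}

theorem compactSpace_M : CompactSpace S.M := compactSpace_threads (X := fun m => Gam (S.E m)) S.π

theorem connectedSpace_M : ConnectedSpace S.M := 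
  connectedSpace_threads (X := fun m => Gam (S.E m)) S.π S.π_surjective

theorem exists_thread_M (N : ℕ) (z : Gam (S.E N)) : ∃ x : S.M, x.1 N = z := by
  have : ∀ m, Nonempty (Gam (S.E m)) := fun m => ⟨Gam.mk (Classical.arbitrary _) 0⟩
  obtain ⟨x, hx, hz⟩ := exists_thread (X := fun m => Gam (S.E m)) S.π S.π_surjective N z
  exact ⟨⟨x, hx⟩, hz⟩

theorem nontrivial_M : Nontrivial S.M := by
  obtain ⟨x, hx⟩ := S.exists_thread_M 0 (Gam.mk (Classical.arbitrary _) 0)
  obtain ⟨y, hy⟩ := S.exists_thread_M 0 (Gam.mk (Classical.arbitrary _) 1)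
  refine ⟨x, y, ?_⟩
  rintro rfl
  rw [hx] at hy
  have := (mk_eq hy).1
  exact zero_ne_one this

/-- the self-map -/
noncomputable def h : C(S.M, S.M) where
  toFun x := ⟨fun m => S.φ m (x.1 (m + 1)), fun m => by rw [S.comm, x.2 (m + 1)]⟩
  continuous_toFun := by
    refine Continuous.subtype_mk (continuous_pi fun m => ?_) _
    exact (S.φ m).continuous.comp ((continuous_apply (m + 1)).comp continuous_subtype_val)

theorem irreducible (x : S.M) (K : Set S.M) (hKc : IsClosed K) (hK : IsConnected K)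
    (hx : x ∈ K) (hhx : S.h x ∈ K) : K = Set.univ := by
  have hne : ∀ m, Nonempty (Gam (S.E m)) := fun m => ⟨Gam.mk (Classical.arbitrary _) 0⟩
  have hcomp := S.compactSpace_M
  have hprc : ∀ N, Continuous (fun x : S.M => x.1 N) :=
    fun N => (continuous_apply N).comp continuous_subtype_val
  -- the projections of `K`
  let P : ∀ N, Set (Gam (S.E N)) := fun N => (fun x : S.M => x.1 N) '' K
  have hPc : ∀ N, IsClosed (P N) := fun N => (hKc.isCompact.image (hprc N)).isClosed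
  have hPconn : ∀ N, IsPreconnected (P N) := fun N =>
    hK.isPreconnected.image _ (hprc N).continuousOn
  have hPπ : ∀ N z, z ∈ P (N + 1) → S.π N z ∈ P N := by
    rintro N z ⟨y, hy, rfl⟩
    exact ⟨y, hy, (y.2 N).symm⟩
  -- half edges
  have hhalf : ∀ N, ∃ e, (∀ t : I, (t : ℝ) ≤ 1 / 2 → Gam.mk e t ∈ P N) ∨
      (∀ t : I, 1 / 2 ≤ (t : ℝ) → Gam.mk e t ∈ P N) := by
    intro N
    obtain ⟨a, b, T, hR, h1, h2⟩ := S.pair N (x.1 (N + 1))
    have hab : a ≠ b := by
      rintro rfl; exact S.irr N a hR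
    refine half_edge (hPconn N) (hPc N) hab T ?_ ?_
    · exact ⟨x, hx, by rw [← h1]; exact (x.2 N).symm⟩
    · exact ⟨S.h x, hhx, by rw [← h2]; rfl⟩
  -- full edges
  have hfull : ∀ N, ∃ e, ∀ t : I, Gam.mk e t ∈ P N := by
    intro N
    obtain ⟨e, he | he⟩ := hhalf (N + 1)
    · refine ⟨S.α N e 0, fun t => ?_⟩
      have h0 : 0 < 2 * S.s N + 1 := by omega
      have hmem := hPπ N _ (he (pc (S.s N) 0 h0 t) ?_)
      · rw [π_mk, wmk_eq (S.s N) _ _ t 0 h0 (pc_spec _ _ h0 _)] at hmem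
        simpa using hmem
      · show (((0 : ℕ) : ℝ) + t) / (2 * S.s N + 1) ≤ 1 / 2
        have h1 : (t : ℝ) ≤ 1 := t.2.2
        have h2 : (1 : ℝ) ≤ S.s N := by exact_mod_cast S.hs N
        rw [div_le_div_iff₀ (by positivity) (by positivity)]
        push_cast; linarith
    · refine ⟨S.α N e (2 * S.s N), fun t => ?_⟩
      have h0 : 2 * S.s N < 2 * S.s N + 1 := by omega
      have hmem := hPπ N _ (he (pc (S.s N) (2 * S.s N) h0 t) ?_)
      · rw [π_mk, wmk_eq (S.s N) _ _ t (2 * S.s N) h0 (pc_spec _ _ h0 _)] at hmem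
        simpa using hmem
      · show 1 / 2 ≤ (((2 * S.s N : ℕ) : ℝ) + t) / (2 * S.s N + 1)
        have h1 : (0 : ℝ) ≤ t := t.2.1
        have h2 : (1 : ℝ) ≤ S.s N := by exact_mod_cast S.hs N
        rw [div_le_div_iff₀ (by positivity) (by positivity)]
        push_cast; linarith
  -- everything
  apply eq_univ_of_proj hKc
  intro N z
  obtain ⟨e, t, rfl⟩ := mk_surj z
  obtain ⟨e', he'⟩ := hfull (N + 1)
  obtain ⟨t', ht'⟩ := S.edge_cover N e' e t
  have := hPπ N _ (he' t')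
  rw [ht'] at this
  exact this

theorem h_surjective : Function.Surjective S.h := by
  have hcomp := S.compactSpace_M
  have hconn := S.connectedSpace_M
  rw [← Set.range_eq_univ]
  obtain ⟨x⟩ := hconn.toNonempty
  exact S.irreducible (S.h x) _ (isCompact_range S.h.continuous).isClosed
    (isConnected_range S.h.continuous) ⟨x, rfl⟩ ⟨S.h x, rfl⟩

end Sys

end Pool.Agent.Work.MP_52b37d_gt
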