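import Pool.Agent.Work.MP_52b37d_gt.Defs

set_option autoImplicit false

namespace Pool.Agent.Work.MP_52b37d_gt

section walks

variable {k : ℕ}

/-- rotation of both cycles -/
def rot (k : ℕ) : Al k → Al k := Sum.map (· + 1) (· + 1)

theorem rot_inl (a : ZMod k) : rot k (Sum.inl a) = Sum.inl (a + 1) := rfl

theorem rot_inr (a : ZMod (k + 1)) : rot k (Sum.inr a) = Sum.inr (a + 1) := rfl

theorem rot_iter_inl (t : ℕ) (a : ZMod k) : (rot k)^[t] (Sum.inl a) = Sum.inl (a + t) := by
  induction t with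
  | zero => simp
  | succ t ih => rw [Function.iterate_succ_apply', ih, rot_inl]; push_cast; rw [add_assoc]

theorem rot_iter_inr (t : ℕ) (a : ZMod (k + 1)) : (rot k)^[t] (Sum.inr a) = Sum.inr (a + t) := by
  induction t with
  | zero => simp
  | succ t ih => rw [Function.iterate_succ_apply', ih, rot_inr]; push_cast; rw [add_assoc]

theorem rot_period (k r : ℕ) (e : Al k) : (rot k)^[r * (k * (k + 1))] e = e := by
  rcases e with a | a
  · rw [rot_iter_inl]
    congr 1
    push_cast
    simp
  · rw [rot_iter_inr]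
    congr 1
    have : ((r * (k * (k + 1)) : ℕ) : ZMod (k + 1)) = 0 := by
      have h : ((k + 1 : ℕ) : ZMod (k + 1)) = 0 := ZMod.natCast_self (k + 1)
      rw [Nat.cast_mul, Nat.cast_mul, h]; ring
    rw [this, add_zero]

theorem rot_injective (k : ℕ) : Function.Injective (rot k) := by
  rintro (a | a) (b | b) h
  · rw [rot_inl, rot_inl] at h
    rw [add_right_cancel (Sum.inl.inj h)]
  · cases h
  · cases h
  · rw [rot_inr, rot_inr] at h
    rw [add_right_cancel (Sum.inr.inj h)]

theorem rel_rot (e : Al k) : Rel k e (rot k e) := by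
  rcases e with a | a
  · rfl
  · rfl

variable {J : Type} [Fintype J]

/-- the number of occurrences of a letter -/
def cnt (f : J → Al k) (e : Al k) : ℤ := ∑ j, if f j = e then 1 else 0

theorem cnt_perm (f : J → Al k) (σ : Equiv.Perm J) (e : Al k) : cnt (f ∘ σ) e = cnt f e :=
  Equiv.sum_comp σ (fun j => if f j = e then (1 : ℤ) else 0)

theorem cnt_rot (f : J → Al k) (e : Al k) : cnt (rot k ∘ f) (rot k e) = cnt f e := by
  unfold cnt
  apply Finset.sum_congr rfl
  intro j _
  simp only [Function.comp, (rot_injective k).eq_iff]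

theorem rot_surjective (k : ℕ) : Function.Surjective (rot k) := by
  rintro (a | a)
  · exact ⟨Sum.inl (a - 1), by rw [rot_inl, sub_add_cancel]⟩
  · exact ⟨Sum.inr (a - 1), by rw [rot_inr, sub_add_cancel]⟩

variable (c : Al k → ℤ)

/-- walks in the space of words with prescribed counts -/
def Walk (t : ℕ) (f f' : J → Al k) : Prop :=
  ∃ F : ℕ → J → Al k, F 0 = f ∧ F t = f' ∧ (∀ i, i < t → ∀ j, Rel k (F i j) (F (i + 1) j)) ∧
    ∀ i, i ≤ t → ∀ e, cnt (F i) e = c e

variable {c}

theorem Walk.trans {t t' : ℕ} {f f' f'' : J → Al k} (h : Walk c t f f') (h' : Walk c t' f' f'') :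
    Walk c (t + t') f f'' := by
  obtain ⟨F, h0, h1, h2, h3⟩ := h
  obtain ⟨G, g0, g1, g2, g3⟩ := h'
  refine ⟨fun i => if i ≤ t then F i else G (i - t), ?_, ?_, ?_, ?_⟩
  · simp [h0]
  · by_cases ht' : t' = 0
    · subst ht'
      simp only [add_zero, le_refl, if_true]
      rw [h1, ← g0, g1]
    · show (if t + t' ≤ t then F (t + t') else G (t + t' - t)) = f''
      rw [if_neg (by omega), Nat.add_sub_cancel_left, g1]
  · intro i hi j
    by_cases h4 : i + 1 ≤ t
    · simp only [if_pos h4, if_pos (show i ≤ t by omega)]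
      exact h2 i (by omega) j
    · simp only [if_neg h4]
      by_cases h5 : i ≤ t
      · have : i = t := by omega
        subst this
        simp only [le_refl, if_true, Nat.add_sub_cancel_left]
        have := g2 0 (by omega) j
        rw [g0] at this
        rw [h1]
        exact this
      · simp only [if_neg h5]
        have := g2 (i - t) (by omega) j
        rw [show i - t + 1 = i + 1 - t by omega] at this
        exact this
  · intro i hi e
    by_cases h5 : i ≤ t
    · simp only [if_pos h5]; exact h3 i h5 e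
    · simp only [if_neg h5]; exact g3 (i - t) (by omega) e

theorem cnt_rot_iter (hc : ∀ e, c (rot k e) = c e) {f : J → Al k} (hf : ∀ e, cnt f e = c e)
    (n : ℕ) (e : Al k) : cnt ((rot k)^[n] ∘ f) e = c e := by
  induction n generalizing e with
  | zero => exact hf e
  | succ n ih =>
    obtain ⟨e, rfl⟩ := rot_surjective k e
    rw [Function.iterate_succ', Function.comp_assoc, cnt_rot, ih, hc]

theorem Walk.rotn (hc : ∀ e, c (rot k e) = c e) {f : J → Al k} (hf : ∀ e, cnt f e = c e) (n : ℕ) :
    Walk c n f ((rot k)^[n] ∘ f) := by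
  refine ⟨fun i => (rot k)^[i] ∘ f, rfl, rfl, ?_, ?_⟩
  · intro i _ j
    simp only [Function.comp, Function.iterate_succ_apply']
    exact rel_rot _
  · intro i _ e
    exact cnt_rot_iter hc hf i e

theorem Walk.pad (hc : ∀ e, c (rot k e) = c e) {f f' : J → Al k} {t : ℕ} (h : Walk c t f f')
    (hf' : ∀ e, cnt f' e = c e) (d : ℕ) : Walk c (t + d * (k * (k + 1))) f f' := by
  have h2 := Walk.rotn hc hf' (d * (k * (k + 1)))
  have : (rot k)^[d * (k * (k + 1))] ∘ f' = f' := funext fun j => rot_period k d (f' j)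
  rw [this] at h2
  exact h.trans h2

theorem Walk.single {f f' : J → Al k} (hf : ∀ e, cnt f e = c e) (hf' : ∀ e, cnt f' e = c e)
    (h : ∀ j, Rel k (f j) (f' j)) : Walk c 1 f f' := by
  refine ⟨fun i => if i = 0 then f else f', by simp, by simp, ?_, ?_⟩
  · intro i hi j
    have : i = 0 := by omega
    subst this
    simpa using h j
  · intro i _ e
    by_cases h0 : i = 0
    · simp only [if_pos h0]; exact hf e
    · simp only [if_neg h0]; exact hf' e

variable [DecidableEq J]

theorem Walk.swap1 (hc : ∀ e, c (rot k e) = c e) {f : J → Al k}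
    (hf : ∀ e, cnt f e = c e) {j j' : J} {a : ZMod k} {b : ZMod (k + 1)} (hk : 2 ≤ k)
    (hj : f j = Sum.inl a) (hj' : f j' = Sum.inr b) :
    Walk c (k * (k + 1)) f (f ∘ Equiv.swap j j') := by
  have hne : NeZero k := ⟨by omega⟩
  have hcop : Nat.Coprime k (k + 1) := by simp
  let z : ZMod (k * (k + 1)) := (ZMod.chineseRemainder hcop).symm (-1 - a, -1 - b)
  have hne2 : NeZero (k * (k + 1)) := ⟨by positivity⟩
  let i : ℕ := z.val
  have hi : i < k * (k + 1) := ZMod.val_lt z
  have hz : ((i : ℕ) : ZMod (k * (k + 1))) = z := ZMod.natCast_zmod_val z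
  have hz2 : (ZMod.chineseRemainder hcop) ((i : ℕ) : ZMod (k * (k + 1))) = (-1 - a, -1 - b) := by
    rw [hz]; exact (ZMod.chineseRemainder hcop).apply_symm_apply _
  rw [map_natCast] at hz2
  have h1 : ((i : ℕ) : ZMod k) = -1 - a := by
    have := congrArg Prod.fst hz2; simpa using this
  have h2 : ((i : ℕ) : ZMod (k + 1)) = -1 - b := by
    have := congrArg Prod.snd hz2; simpa using this
  have hjj : j ≠ j' := by
    rintro rfl; rw [hj] at hj'; cases hj'
  have hsw : ∀ e, cnt (f ∘ Equiv.swap j j') e = c e := fun e => by rw [cnt_perm, hf]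
  have w1 := Walk.rotn hc hf i
  have w2 : Walk c 1 ((rot k)^[i] ∘ f) ((rot k)^[i + 1] ∘ (f ∘ Equiv.swap j j')) := by
    refine Walk.single (cnt_rot_iter hc hf i) (cnt_rot_iter hc hsw (i + 1)) ?_
    intro x
    simp only [Function.comp]
    by_cases hx : x = j
    · subst hx
      rw [Equiv.swap_apply_left, hj, hj', rot_iter_inl, rot_iter_inr]
      refine ⟨?_, ?_⟩
      · rw [h1]; ring
      · push_cast; rw [h2]; ring
    · by_cases hx' : x = j'
      · subst hx'
        rw [Equiv.swap_apply_right, hj, hj', rot_iter_inl, rot_iter_inr]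
        refine ⟨?_, ?_⟩
        · rw [h2]; ring
        · push_cast; rw [h1]; ring
      · rw [Equiv.swap_apply_of_ne_of_ne hx hx', Function.iterate_succ_apply']
        exact rel_rot _
  have w3 := Walk.rotn hc (cnt_rot_iter hc hsw (i + 1)) (k * (k + 1) - (i + 1))
  have w4 := (w1.trans w2).trans w3
  have e1 : i + 1 + (k * (k + 1) - (i + 1)) = k * (k + 1) := by omega
  have e2 : (rot k)^[k * (k + 1) - (i + 1)] ∘ ((rot k)^[i + 1] ∘ (f ∘ Equiv.swap j j'))
      = f ∘ Equiv.swap j j' := by
    funext x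
    simp only [Function.comp]
    rw [← Function.iterate_add_apply, show k * (k + 1) - (i + 1) + (i + 1) = 1 * (k * (k + 1)) by omega,
      rot_period]
  rw [e1, e2] at w4
  exact w4

theorem exists_letter {f : J → Al k} (hf : ∀ e, cnt f e = c e) (hpos : ∀ e, 1 ≤ c e) (e : Al k) :
    ∃ m, f m = e := by
  by_contra hcon
  push Not at hcon
  have : cnt f e = 0 := by
    unfold cnt
    apply Finset.sum_eq_zero
    intro j _
    rw [if_neg (hcon j)]
  have h1 := hpos e
  rw [← hf e, this] at h1
  omega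

theorem swap3 {j j' m : J} (h1 : j ≠ j') (h2 : m ≠ j) (h3 : m ≠ j') (f : J → Al k) :
    ((f ∘ Equiv.swap j m) ∘ Equiv.swap j' j) ∘ Equiv.swap m j' = f ∘ Equiv.swap j j' := by
  funext x
  simp only [Function.comp]
  congr 1
  by_cases hx : x = j
  · subst hx
    rw [Equiv.swap_apply_of_ne_of_ne (Ne.symm h2) h1, Equiv.swap_apply_right,
      Equiv.swap_apply_of_ne_of_ne (Ne.symm h1) (Ne.symm h3), Equiv.swap_apply_left]
  · by_cases hx' : x = j'
    · subst hx'
      rw [Equiv.swap_apply_right, Equiv.swap_apply_of_ne_of_ne h3 h2, Equiv.swap_apply_right,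
        Equiv.swap_apply_right]
    · by_cases hxm : x = m
      · subst hxm
        rw [Equiv.swap_apply_left, Equiv.swap_apply_left, Equiv.swap_apply_left,
          Equiv.swap_apply_of_ne_of_ne h2 h3]
      · rw [Equiv.swap_apply_of_ne_of_ne hxm hx', Equiv.swap_apply_of_ne_of_ne hx' hx,
          Equiv.swap_apply_of_ne_of_ne hx hxm, Equiv.swap_apply_of_ne_of_ne hx hx']

theorem Walk.swap (hc : ∀ e, c (rot k e) = c e) (hpos : ∀ e, 1 ≤ c e) (hk : 2 ≤ k) {f : J → Al k}
    (hf : ∀ e, cnt f e = c e) (j j' : J) :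
    ∃ r, Walk c (r * (k * (k + 1))) f (f ∘ Equiv.swap j j') := by
  have hcs : ∀ (g : J → Al k), (∀ e, cnt g e = c e) → ∀ x y, ∀ e, cnt (g ∘ Equiv.swap x y) e = c e :=
    fun g hg x y e => by rw [cnt_perm, hg]
  by_cases hjj : j = j'
  · subst hjj
    refine ⟨0, ?_⟩
    rw [Equiv.swap_self, zero_mul]
    exact Walk.rotn hc hf 0
  · rcases hfj : f j with a | a <;> rcases hfj' : f j' with b | b
    · -- both in the first cycle
      obtain ⟨m, hm⟩ := exists_letter hf hpos (Sum.inr 0)
      have hmj : m ≠ j := by rintro rfl; rw [hm] at hfj; cases hfj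
      have hmj' : m ≠ j' := by rintro rfl; rw [hm] at hfj'; cases hfj'
      refine ⟨3, ?_⟩
      have w1 := Walk.swap1 hc hf hk hfj hm
      have w2 := Walk.swap1 hc (hcs f hf j m) hk (j := j') (j' := j) (a := b) (b := 0)
        (by simp only [Function.comp]
            rw [Equiv.swap_apply_of_ne_of_ne (Ne.symm hjj) (Ne.symm hmj'), hfj'])
        (by simp only [Function.comp]; rw [Equiv.swap_apply_left, hm])
      have w3 := Walk.swap1 hc (hcs _ (hcs f hf j m) j' j) hk (j := m) (j' := j') (a := a) (b := 0)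
        (by simp only [Function.comp]
            rw [Equiv.swap_apply_of_ne_of_ne hmj' hmj, Equiv.swap_apply_right, hfj])
        (by simp only [Function.comp]; rw [Equiv.swap_apply_left, Equiv.swap_apply_left, hm])
      have w4 := (w1.trans w2).trans w3
      rw [swap3 hjj hmj hmj'] at w4
      rw [show 3 * (k * (k + 1)) = k * (k + 1) + k * (k + 1) + k * (k + 1) by ring]
      exact w4
    · exact ⟨1, by rw [one_mul]; exact Walk.swap1 hc hf hk hfj hfj'⟩
    · refine ⟨1, ?_⟩
      rw [one_mul, Equiv.swap_comm]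
      exact Walk.swap1 hc hf hk hfj' hfj
    · obtain ⟨m, hm⟩ := exists_letter hf hpos (Sum.inl 0)
      have hmj : m ≠ j := by rintro rfl; rw [hm] at hfj; cases hfj
      have hmj' : m ≠ j' := by rintro rfl; rw [hm] at hfj'; cases hfj'
      refine ⟨3, ?_⟩
      have w1 := Walk.swap1 hc hf hk hm hfj
      rw [Equiv.swap_comm] at w1
      have w2 := Walk.swap1 hc (hcs f hf j m) hk (j := j) (j' := j') (a := 0) (b := b)
        (by simp only [Function.comp]; rw [Equiv.swap_apply_left, hm])
        (by simp only [Function.comp]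
            rw [Equiv.swap_apply_of_ne_of_ne (Ne.symm hjj) (Ne.symm hmj'), hfj'])
      rw [Equiv.swap_comm j j'] at w2
      have w3 := Walk.swap1 hc (hcs _ (hcs f hf j m) j' j) hk (j := j') (j' := m) (a := 0) (b := a)
        (by simp only [Function.comp]; rw [Equiv.swap_apply_left, Equiv.swap_apply_left, hm])
        (by simp only [Function.comp]
            rw [Equiv.swap_apply_of_ne_of_ne hmj' hmj, Equiv.swap_apply_right, hfj])
      rw [Equiv.swap_comm j' m] at w3
      have w4 := (w1.trans w2).trans w3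
      rw [swap3 hjj hmj hmj'] at w4
      rw [show 3 * (k * (k + 1)) = k * (k + 1) + k * (k + 1) + k * (k + 1) by ring]
      exact w4

theorem Walk.perm (hc : ∀ e, c (rot k e) = c e) (hpos : ∀ e, 1 ≤ c e) (hk : 2 ≤ k)
    (σ : Equiv.Perm J) : ∀ {f : J → Al k}, (∀ e, cnt f e = c e) →
    ∃ r, Walk c (r * (k * (k + 1))) f (f ∘ σ) := by
  induction σ using Equiv.Perm.swap_induction_on with
  | one =>
    intro f hf
    exact ⟨0, by rw [zero_mul]; exact Walk.rotn hc hf 0⟩
  | swap_mul g x y _ ih =>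
    intro f hf
    obtain ⟨r1, w1⟩ := Walk.swap hc hpos hk hf x y
    obtain ⟨r2, w2⟩ := ih (f := f ∘ Equiv.swap x y) (fun e => by rw [cnt_perm, hf])
    refine ⟨r1 + r2, ?_⟩
    rw [add_mul]
    exact w1.trans w2

/-- The key statement for one part. -/
theorem Walk.rev (hc : ∀ e, c (rot k e) = c e) (hpos : ∀ e, 1 ≤ c e) (hk : 2 ≤ k)
    {Z : Type} (proj : Z → Al k) (rh : Equiv.Perm Z) (hrh : ∀ z, proj (rh z) = rot k (proj z))
    (ε : J ≃ Z) (hf : ∀ e, cnt (proj ∘ ε) e = c e) (rv : Equiv.Perm J) :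
    ∃ r0, ∀ r, r0 ≤ r → Walk c (r * (k * (k + 1)) + 1) (proj ∘ ε) ((proj ∘ ε) ∘ rv) := by
  let σ : Equiv.Perm J := rv.trans (ε.trans (rh.symm.trans ε.symm))
  obtain ⟨r0, w⟩ := Walk.perm hc hpos hk σ hf
  refine ⟨r0, fun r hr => ?_⟩
  have hσ : ∀ e, cnt ((proj ∘ ε) ∘ σ) e = c e := fun e => by rw [cnt_perm, hf]
  have w2 := w.pad hc hσ (r - r0)
  rw [← add_mul, Nat.add_sub_cancel' hr] at w2
  have w3 := w2.trans (Walk.rotn hc hσ 1)
  have : (rot k)^[1] ∘ ((proj ∘ ε) ∘ σ) = (proj ∘ ε) ∘ rv := by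
    funext x
    simp only [Function.comp, Function.iterate_one, σ, Equiv.trans_apply, Equiv.apply_symm_apply]
    rw [← hrh, Equiv.apply_symm_apply]
  rw [this] at w3
  exact w3

end walks

end Pool.Agent.Work.MP_52b37d_gt
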